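import Pool.Agent.R32.TG.Main

namespace Pool.Agent.R32.TG

open Set Topology

variable {n : ℕ} {G : SimpleGraph (Fin n)}

/-- crossing points are far away from the discs -/
lemma far {n k l : ℤ} (h : Ok n k l) (s : Hd) (b : Bool) {x y : ℤ} (hx1 : x < n*n)
    (hy0 : 0 ≤ y) (hy1 : y < n*n) :
    (cX n k l s b + 2 ≤ 16*x ∨ 16*x + 2 ≤ cX n k l s b) ∨
    (cY n k l s b + 2 ≤ 16*y ∨ 16*y + 2 ≤ cY n k l s b) := by
  obtain ⟨f1, f2, f3⟩ := facts h
  obtain ⟨a1, a2, a3⟩ := h
  cases s <;> cases b <;> simp only [cX, cY] <;> omega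

lemma far_norm {n k l : ℤ} (h : Ok n k l) (s : Hd) (b : Bool) {x y : ℤ} (hx1 : x < n*n)
    (hy0 : 0 ≤ y) (hy1 : y < n*n) (z : ℂ) (hz : |z.re - 16*x| < 1) (hz' : |z.im - 16*y| < 1) :
    1 < ‖z - cen n k l s b‖ := by
  rw [abs_lt] at hz hz'
  have hr := Complex.abs_re_le_norm (z - cen n k l s b)
  have hi := Complex.abs_im_le_norm (z - cen n k l s b)
  rcases far h s b hx1 hy0 hy1 with (hf | hf) | (hf | hf)
  · have hf' : ((cX n k l s b : ℤ) : ℝ) + 2 ≤ 16*x := by exact_mod_cast hf
    have : 1 < |(z - cen n k l s b).re| := by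
      simp only [cen, Complex.sub_re]
      rw [lt_abs]; left; linarith
    linarith
  · have hf' : (16*x : ℝ) + 2 ≤ (cX n k l s b : ℤ) := by exact_mod_cast hf
    have : 1 < |(z - cen n k l s b).re| := by
      simp only [cen, Complex.sub_re]
      rw [lt_abs]; right; linarith
    linarith
  · have hf' : ((cY n k l s b : ℤ) : ℝ) + 2 ≤ 16*y := by exact_mod_cast hf
    have : 1 < |(z - cen n k l s b).im| := by
      simp only [cen, Complex.sub_im]
      rw [lt_abs]; left; linarith
    linarith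
  · have hf' : (16*y : ℝ) + 2 ≤ (cY n k l s b : ℤ) := by exact_mod_cast hf
    have : 1 < |(z - cen n k l s b).im| := by
      simp only [cen, Complex.sub_im]
      rw [lt_abs]; right; linarith
    linarith

lemma h_range {n i j k l : ℤ} (h : Ok n i j) (h' : Ok n k l) (hik : i < k) (hkj : k ≠ j) :
    ∃ a, IsH a ∧ lo n i j a + 1 ≤ 16*(n*k + l) ∧ 16*(n*k + l) + 1 ≤ hi n i j a := by
  obtain ⟨f1, f2, f3⟩ := facts h
  obtain ⟨g1, g2, g3⟩ := facts h'
  obtain ⟨a1, a2, a3⟩ := h
  obtain ⟨b1, b2, b3⟩ := h'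
  have c1 := cmp n i k (by omega)
  have c3 := cmp n j k (by omega)
  rcases lt_or_gt_of_ne hkj with hkj | hkj
  · refine ⟨.h0, trivial, ?_, ?_⟩ <;> simp only [lo, hi] <;> omega
  · refine ⟨.h1, trivial, ?_, ?_⟩ <;> simp only [lo, hi] <;> omega

lemma v_range {n i j k l : ℤ} (h : Ok n i j) (h' : Ok n k l) (hlj : l ≠ j) :
    ∃ a, IsV a ∧ lo n k l a + 1 ≤ 16*(n*j + i) ∧ 16*(n*j + i) + 1 ≤ hi n k l a := by
  obtain ⟨f1, f2, f3⟩ := facts h
  obtain ⟨g1, g2, g3⟩ := facts h'
  obtain ⟨a1, a2, a3⟩ := h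
  obtain ⟨b1, b2, b3⟩ := h'
  have c3 := cmp n l j (by omega)
  rcases lt_or_gt_of_ne hlj with hlj | hlj
  · refine ⟨.v1, trivial, ?_, ?_⟩ <;> simp only [lo, hi] <;> omega
  · refine ⟨.v0, trivial, ?_, ?_⟩ <;> simp only [lo, hi] <;> omega

/-- near the crossing point the edge `(i, j)` is its horizontal line -/
lemma local_h {n i j k l : ℤ} (h : Ok n i j) (h' : Ok n k l) (hik : i < k) (hkj : k ≠ j)
    {x y : ℝ} (hx : |x - 16*(n*k + l)| < 1) (hy : |y - 16*(n*j + i)| < 1) :
    (∃ a : Pc, ∃ t : ℝ, (lo n i j a : ℝ) ≤ t ∧ t ≤ hi n i j a ∧ pt n i j a t = ⟨x, y⟩) ↔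
      y = 16*(n*j + i) := by
  rw [abs_lt] at hx hy
  obtain ⟨r1, r2, r3, r4, r5, r6⟩ := factsR h
  constructor
  · rintro ⟨a, t, h1, h2, he⟩
    by_cases ha : IsH a
    · have e1 : (pt n i j a t).im = 16*(n*j) + 16*i := by
        cases a <;> simp only [IsH] at ha <;> simp [pt]
      rw [he] at e1
      simp only at e1
      linarith
    · exfalso
      rw [pt_col ha, Complex.mk.injEq] at he
      obtain ⟨e1, e2⟩ := he
      have ht : -1 < t := by nlinarith
      have hm : min (16:ℝ) (t + 48) = 16 := min_eq_left (by linarith)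
      rw [hm] at e1
      have hs : a ≠ .s := by
        rintro rfl
        simp only [hi] at h2
        push_cast at h2
        linarith
      have hc : colOf i j a = (i, j) := by
        cases a <;> simp [colOf] at hs ⊢
      rw [hc] at e1
      simp only at e1
      have e3 : (16*(n*i + j) - 16*(n*k+l) : ℝ) < 1 := by linarith
      have e4 : (-1:ℝ) < (16*(n*i + j) - 16*(n*k+l) : ℝ) := by linarith
      have e3' : (16*(n*i + j) - 16*(n*k+l) : ℤ) < 1 := by exact_mod_cast e3
      have e4' : (-1:ℤ) < (16*(n*i + j) - 16*(n*k+l) : ℤ) := by exact_mod_cast e4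
      have c1 := cmp n i k (by have := h.hi; have := h.hij; have := h.hj; omega)
      have := h.hj
      have := h.hij
      have := h.hi
      have := h'.hi
      have := h'.hij
      omega
  · intro hy'
    obtain ⟨a, ha, h1, h2⟩ := h_range h h' hik hkj
    have h1' : ((lo n i j a : ℤ) : ℝ) + 1 ≤ 16*(n*k + l) := by exact_mod_cast h1
    have h2' : (16*(n*k + l) : ℝ) + 1 ≤ (hi n i j a : ℤ) := by exact_mod_cast h2
    refine ⟨a, x, by linarith, by linarith, ?_⟩
    rw [hy']
    cases a <;> simp only [IsH] at ha <;> simp only [pt] <;> congr 1 <;> ring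

/-- near the crossing point the edge `(k, l)` is its vertical line -/
lemma local_v {n i j k l : ℤ} (h : Ok n i j) (h' : Ok n k l) (hlj : l ≠ j)
    {x y : ℝ} (hx : |x - 16*(n*k + l)| < 1) (hy : |y - 16*(n*j + i)| < 1) :
    (∃ a : Pc, ∃ t : ℝ, (lo n k l a : ℝ) ≤ t ∧ t ≤ hi n k l a ∧ pt n k l a t = ⟨x, y⟩) ↔
      x = 16*(n*k + l) := by
  rw [abs_lt] at hx hy
  obtain ⟨r1, r2, r3, r4, r5, r6⟩ := factsR h
  constructor
  · rintro ⟨a, t, h1, h2, he⟩
    by_cases ha : IsH a
    · exfalso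
      have e1 : (pt n k l a t).im = 16*(n*l) + 16*k := by
        cases a <;> simp only [IsH] at ha <;> simp [pt]
      rw [he] at e1
      simp only at e1
      have e3 : (16*(n*l + k) - 16*(n*j+i) : ℝ) < 1 := by linarith
      have e4 : (-1:ℝ) < (16*(n*l + k) - 16*(n*j+i) : ℝ) := by linarith
      have e3' : (16*(n*l + k) - 16*(n*j+i) : ℤ) < 1 := by exact_mod_cast e3
      have e4' : (-1:ℤ) < (16*(n*l + k) - 16*(n*j+i) : ℤ) := by exact_mod_cast e4
      have c1 := cmp n l j (by have := h.hi; have := h.hij; have := h.hj; omega)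
      have := h.hj
      have := h.hij
      have := h.hi
      have := h'.hi
      have := h'.hij
      have := h'.hj
      omega
    · rw [pt_col ha, Complex.mk.injEq] at he
      obtain ⟨e1, e2⟩ := he
      have ht : -1 < t := by nlinarith
      have hm : min (16:ℝ) (t + 48) = 16 := min_eq_left (by linarith)
      rw [hm] at e1
      have hs : a ≠ .s := by
        rintro rfl
        simp only [hi] at h2
        push_cast at h2
        linarith
      have hc : colOf k l a = (k, l) := by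
        cases a <;> simp [colOf] at hs ⊢
      rw [hc] at e1
      simp only at e1
      linarith
  · intro hx'
    obtain ⟨a, ha, h1, h2⟩ := v_range h h' hlj
    have h1' : ((lo n k l a : ℤ) : ℝ) + 1 ≤ 16*(n*j + i) := by exact_mod_cast h1
    have h2' : (16*(n*j + i) : ℝ) + 1 ≤ (hi n k l a : ℤ) := by exact_mod_cast h2
    have hm : min (16:ℝ) (y + 48) = 16 := min_eq_left (by nlinarith)
    refine ⟨a, y, by linarith, by linarith, ?_⟩
    rw [hx']
    cases a <;> simp only [IsV] at ha <;> simp only [pt] <;> rw [hm] <;> congr 1 <;> ring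

/-- the crossing of two edges -/
lemma cross (e f : EIdx n G) (hik : e.i < f.i) (hkj : f.i ≠ e.j) (hlj : f.j ≠ e.j) :
    ∃ p, AS e ∩ AS f = {p} ∧ CrossAt (AS e) (AS f) p := by
  have he := e.ok
  have hf := f.ok
  have hne : e ≠ f := by rintro rfl; exact absurd hik (lt_irrefl _)
  set X : ℝ := 16*((n:ℤ)*f.i + f.j) with hX
  set Y : ℝ := 16*((n:ℤ)*e.j + e.i) with hY
  have hfar : ∀ z : ℂ, |z.re - X| < 1 → |z.im - Y| < 1 → ∀ k b, 1 < ‖z - (cfg n G).c k b‖ := by
    intro z hz hz' k b
    have g := facts hf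
    have g' := facts he
    have a1 := hf.hi
    have a2 := hf.hij
    have a3 := hf.hj
    have b1 := he.hi
    have b2 := he.hij
    have b3 := he.hj
    refine far_norm k.1.ok k.2 b (x := (n:ℤ)*f.i + f.j) (y := (n:ℤ)*e.j + e.i) ?_ ?_ ?_ z ?_ ?_
    · omega
    · omega
    · omega
    · have e0 : (16 * (((n:ℤ)*f.i + f.j : ℤ) : ℝ)) = X := by rw [hX]; push_cast; ring
      rw [e0]; exact hz
    · have e0 : (16 * (((n:ℤ)*e.j + e.i : ℤ) : ℝ)) = Y := by rw [hY]; push_cast; ring
      rw [e0]; exact hz'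
  have hregz : ∀ z : ℂ, |z.re - X| < 1 → |z.im - Y| < 1 → z ∈ (cfg n G).Reg :=
    fun z h1 h2 k b => (hfar z h1 h2 k b).le
  -- membership near the crossing point
  have hmem : ∀ (g : EIdx n G) (z : ℂ), |z.re - X| < 1 → |z.im - Y| < 1 →
      ((cfg n G).toS z ∈ AS g ↔ ∃ a : Pc, ∃ t : ℝ, (lo n g.i g.j a : ℝ) ≤ t ∧
        t ≤ hi n g.i g.j a ∧ pt n g.i g.j a t = z) := by
    intro g z h1 h2
    rw [mem_AS]
    constructor
    · rintro ⟨a, t, k1, k2, h⟩
      refine ⟨a, t, k1, k2, ?_⟩
      rcases (cfg n G).toS_eq (pt_reg g k1 k2) (hregz z h1 h2) h with h | h | h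
      · exact h
      · exfalso
        obtain ⟨k, q1, q2⟩ := HandleConfig.PG.left _ h
        have := hfar z h1 h2 k true
        linarith
      · exfalso
        obtain ⟨k, q1, q2⟩ := HandleConfig.PG.left _ h
        have := hfar z h1 h2 k false
        linarith
    · rintro ⟨a, t, k1, k2, h⟩
      exact ⟨a, t, k1, k2, by rw [h]⟩
  refine ⟨(cfg n G).toS ⟨X, Y⟩, ?_, ?_⟩
  · apply Subset.antisymm
    · rintro x ⟨hx, hx'⟩
      obtain ⟨a, t, k1, k2, rfl⟩ := mem_AS.mp hx
      obtain ⟨a', t', k1', k2', h'⟩ := mem_AS.mp hx'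
      rcases S_eq e f k1 k2 k1' k2' h'.symm with h | ⟨h, -⟩
      · rcases inter he hf (by rintro ⟨q1, q2⟩; exact hne (EIdx.ext' q1 q2)) a a' t t' k1 k2 k1' k2' h
          with ⟨v, hv1, hv2, -⟩ | ⟨-, -, -, h⟩ | ⟨h, -⟩
        · exfalso
          have := he.hij
          have := hf.hij
          omega
        · rw [h]
          simp only [mem_singleton_iff]
          congr 1
          apply Complex.ext <;> simp only [hX, hY] <;> push_cast <;> ring
        · exfalso; omega
      · exact absurd h hne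
    · rintro x rfl
      constructor
      · rw [hmem e _ (by simp) (by simp)]
        exact (local_h he hf hik hkj (x := X) (y := Y) (by simp [hX]) (by simp [hY])).mpr rfl
      · rw [hmem f _ (by simp) (by simp)]
        exact (local_v he hf hlj (x := X) (y := Y) (by simp [hX]) (by simp [hY])).mpr rfl
  · refine ⟨fun q => (cfg n G).toS ⟨X + q.1.1, Y + q.2.1⟩, (cfg n G).chart X Y hfar, ?_, ?_, ?_⟩
    · intro q h1 h2
      simp only [h1, h2, add_zero]
    · rintro ⟨⟨q1, h1⟩, ⟨q2, h2⟩⟩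
      have b1 : |X + q1 - X| < 1 := by rw [add_sub_cancel_left]; exact abs_lt.mpr h1
      have b2 : |Y + q2 - Y| < 1 := by rw [add_sub_cancel_left]; exact abs_lt.mpr h2
      simp only
      rw [hmem e _ b1 b2]
      refine (local_h he hf hik hkj (x := X + q1) (y := Y + q2) b1 b2).trans ?_
      constructor
      · intro h
        have : Y + q2 = Y := h
        linarith
      · intro h
        rw [h, add_zero]
    · rintro ⟨⟨q1, h1⟩, ⟨q2, h2⟩⟩
      have b1 : |X + q1 - X| < 1 := by rw [add_sub_cancel_left]; exact abs_lt.mpr h1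
      have b2 : |Y + q2 - Y| < 1 := by rw [add_sub_cancel_left]; exact abs_lt.mpr h2
      simp only
      rw [hmem f _ b1 b2]
      refine (local_v he hf hlj (x := X + q1) (y := Y + q2) b1 b2).trans ?_
      constructor
      · intro h
        have : X + q1 = X := h
        linarith
      · intro h
        rw [h, add_zero]

end Pool.Agent.R32.TG
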