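import Mathlib

/-!
# Thrackles on the compact orientable surface of genus `g`: definitions

The surface of genus `g` is modelled as the sphere `ℂ ∪ {∞}` with `g` handles: `2g` pairwise
disjoint closed unit discs, grouped into `g` pairs, are chosen in the plane, their interiors are
removed, and the two boundary circles of each pair are glued by the orientation-reversing map
`c k false + u ↦ c k true + conj u` (`‖u‖ = 1`).
-/

namespace Pool.Agent.R32.TG

open Set Topology

/-- `|ι|` pairs of discs: the closed unit discs with centres `c k b` (`k : ι`, `b : Bool`) are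
pairwise disjoint. -/
structure HandleConfig (ι : Type) where
  /-- the centres of the discs; `c k false` and `c k true` form the `k`-th pair -/
  c : ι → Bool → ℂ
  /-- the closed unit discs around the centres are pairwise disjoint -/
  disj : ∀ k b k' b', (k, b) ≠ (k', b') → 2 < ‖c k b - c k' b'‖

namespace HandleConfig

variable {ι : Type} (H : HandleConfig ι)

/-- The sphere `ℂ ∪ {∞}` minus the open unit discs around the centres: a sphere with holes. -/
def Bordered : Type :=
  {z : OnePoint ℂ // ∀ k b (w : ℂ), z = (w : OnePoint ℂ) → 1 ≤ ‖w - H.c k b‖}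

instance : TopologicalSpace H.Bordered :=
  inferInstanceAs (TopologicalSpace {z : OnePoint ℂ //
    ∀ k b (w : ℂ), z = (w : OnePoint ℂ) → 1 ≤ ‖w - H.c k b‖})

/-- The gluing of the boundary circles: the point `c k false + u` of one circle of the `k`-th pair
is glued to the point `c k true + conj u` of the other circle. -/
def Glued (p q : H.Bordered) : Prop :=
  ∃ (k : ι) (u : ℂ), ‖u‖ = 1 ∧ p.1 = ((H.c k false + u : ℂ) : OnePoint ℂ) ∧
    q.1 = ((H.c k true + (starRingEnd ℂ) u : ℂ) : OnePoint ℂ)

/-- The closed orientable surface obtained from the sphere by attaching `|ι|` handles (the quotient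
of the sphere with holes by the equivalence relation generated by the gluing). -/
def Surface : Type := Quot H.Glued

instance : TopologicalSpace H.Surface :=
  inferInstanceAs (TopologicalSpace (Quot H.Glued))

end HandleConfig

/-- `A` is a simple arc with end points `a` and `b`. -/
def IsArc {X : Type} [TopologicalSpace X] (A : Set X) (a b : X) : Prop :=
  ∃ γ : unitInterval → X, Continuous γ ∧ Function.Injective γ ∧ γ 0 = a ∧ γ 1 = b ∧ range γ = A

/-- The curves `A` and `B` cross at the point `p`: in some chart of the surface around `p`, with
domain the open square `(-1,1) × (-1,1)`, the curve `A` is the horizontal axis and `B` is the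
vertical axis. -/
def CrossAt {X : Type} [TopologicalSpace X] (A B : Set X) (p : X) : Prop :=
  ∃ φ : Ioo (-1 : ℝ) 1 × Ioo (-1 : ℝ) 1 → X, IsOpenEmbedding φ ∧
    (∀ q, q.1.1 = 0 → q.2.1 = 0 → φ q = p) ∧
    (∀ q, φ q ∈ A ↔ q.2.1 = 0) ∧ (∀ q, φ q ∈ B ↔ q.1.1 = 0)

/-- A thrackle of the graph `G` on the surface `X`. -/
structure Thrackle (X : Type) [TopologicalSpace X] {V : Type*} (G : SimpleGraph V) where
  /-- the points representing the vertices -/
  pos : V → X
  /-- the arcs representing the edges -/
  arc : Sym2 V → Set X
  /-- the vertices are distinct points -/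
  pos_injective : Function.Injective pos
  /-- each edge is a simple arc between its end vertices -/
  isArc : ∀ u v, G.Adj u v → IsArc (arc s(u, v)) (pos u) (pos v)
  /-- an edge passes through no vertex except its end vertices -/
  vertex_free : ∀ u v w, G.Adj u v → pos w ∈ arc s(u, v) → w = u ∨ w = v
  /-- two edges sharing an end vertex meet only at this vertex -/
  adjacent : ∀ u v w, G.Adj u v → G.Adj u w → v ≠ w → arc s(u, v) ∩ arc s(u, w) = {pos u}
  /-- two edges without common end vertex meet in exactly one point and cross there -/
  disjoint : ∀ u v w z, G.Adj u v → G.Adj w z → u ≠ w → u ≠ z → v ≠ w → v ≠ z →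
    ∃ p, arc s(u, v) ∩ arc s(w, z) = {p} ∧ CrossAt (arc s(u, v)) (arc s(w, z)) p

/-- `G` can be thrackled on the compact orientable surface of genus `g` (a sphere with `g`
handles). -/
def CanBeThrackled {V : Type*} (G : SimpleGraph V) (g : ℕ) : Prop :=
  ∃ (ι : Type) (_ : Fintype ι) (H : HandleConfig ι), Fintype.card ι = g ∧
    Nonempty (Thrackle H.Surface G)

/-- The thrackle genus of `G`: the least `g` such that `G` can be thrackled on the compact
orientable surface of genus `g`. -/
noncomputable def thrackleGenus {V : Type*} (G : SimpleGraph V) : ℕ :=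
  sInf {g | CanBeThrackled G g}

end Pool.Agent.R32.TG
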