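import Pool.Agent.R32.TG.Cross

namespace Pool.Agent.R32.TG

open Set Topology

variable {n : ℕ} {G : SimpleGraph (Fin n)}

lemma IsArc.left_mem {X : Type} [TopologicalSpace X] {A : Set X} {a b : X} (h : IsArc A a b) :
    a ∈ A := by
  obtain ⟨γ, -, -, h0, -, hr⟩ := h
  rw [← hr, ← h0]; exact mem_range_self _

lemma IsArc.right_mem {X : Type} [TopologicalSpace X] {A : Set X} {a b : X} (h : IsArc A a b) :
    b ∈ A := h.symm.left_mem

lemma vx_far {n k l : ℤ} (h : Ok n k l) (s : Hd) (b : Bool) (v : ℤ) :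
    1 < ‖vx n v - cen n k l s b‖ := by
  have h1 := Complex.abs_im_le_norm (vx n v - cen n k l s b)
  have h2 : (-31 : ℝ) ≤ (cY n k l s b : ℤ) := by exact_mod_cast cY_ge h s b
  have : 1 < |(vx n v - cen n k l s b).im| := by
    simp only [vx, cen, Complex.sub_im]
    rw [lt_abs]; right; linarith
  linarith

lemma vx_eq (v : ℤ) {z : ℂ} (hz : z ∈ (cfg n G).Reg)
    (h : (cfg n G).toS z = (cfg n G).toS (vx n v)) : z = vx n v := by
  have hr : vx n v ∈ (cfg n G).Reg := fun k b => (vx_far k.1.ok k.2 b v).le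
  rcases (cfg n G).toS_eq hz hr h with h | h | h
  · exact h
  · exfalso
    obtain ⟨k, q1, q2⟩ := HandleConfig.PG.left _ h
    have : 1 < ‖vx n v - (cfg n G).c k true‖ := vx_far k.1.ok k.2 true v
    linarith
  · exfalso
    obtain ⟨k, q1, q2⟩ := HandleConfig.PG.left _ h
    have : 1 < ‖vx n v - (cfg n G).c k false‖ := vx_far k.1.ok k.2 false v
    linarith

/-- the arcs of the drawing -/
noncomputable def arcs (n : ℕ) (G : SimpleGraph (Fin n)) (e : Sym2 (Fin n)) :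
    Set (cfg n G).Surface :=
  {x | ∃ e' : EIdx n G, s(e'.1.1, e'.1.2) = e ∧ x ∈ AS e'}

lemma arcs_eq (e : EIdx n G) : arcs n G s(e.1.1, e.1.2) = AS e := by
  ext x
  constructor
  · rintro ⟨e', h, hx⟩
    have : e' = e := by
      rw [Sym2.eq_iff] at h
      have h1 := e.2.1
      have h2 := e'.2.1
      rcases h with ⟨h, h'⟩ | ⟨h, h'⟩
      · exact Subtype.ext (Prod.ext h h')
      · rw [h, h'] at h2
        exact absurd h1 (lt_asymm h2)
    rw [← this]; exact hx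
  · intro hx
    exact ⟨e, rfl, hx⟩

lemma exists_e {u v : Fin n} (h : G.Adj u v) : ∃ e : EIdx n G, arcs n G s(u, v) = AS e ∧
    ((e.1.1 = u ∧ e.1.2 = v) ∨ (e.1.1 = v ∧ e.1.2 = u)) := by
  rcases lt_or_gt_of_ne h.ne with huv | huv
  · exact ⟨⟨(u, v), huv, h⟩, arcs_eq ⟨(u, v), huv, h⟩, Or.inl ⟨rfl, rfl⟩⟩
  · refine ⟨⟨(v, u), huv, h.symm⟩, ?_, Or.inr ⟨rfl, rfl⟩⟩
    rw [Sym2.eq_swap]
    exact arcs_eq ⟨(v, u), huv, h.symm⟩

/-- The drawing is a thrackle. -/
noncomputable def thr (n : ℕ) (G : SimpleGraph (Fin n)) : Thrackle (cfg n G).Surface G where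
  pos := posn n G
  arc := arcs n G
  pos_injective := by
    intro u v h
    have hr : vx n ((u : ℕ) : ℤ) ∈ (cfg n G).Reg := fun k b => (vx_far k.1.ok k.2 b _).le
    have := vx_eq (G := G) ((v : ℕ) : ℤ) hr h
    simp only [vx, Complex.mk.injEq, and_true] at this
    have hn : (0:ℝ) < ((n : ℤ) : ℝ) := by
      have := u.2
      have : 0 < n := by omega
      exact_mod_cast this
    have h3 : ((n : ℤ) : ℝ) * (((u : ℕ) : ℤ) : ℝ) = ((n : ℤ) : ℝ) * (((v : ℕ) : ℤ) : ℝ) := by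
      linarith
    have h4 := mul_left_cancel₀ hn.ne' h3
    apply Fin.ext
    exact_mod_cast h4
  isArc := by
    intro u v h
    obtain ⟨e, he, ⟨rfl, rfl⟩ | ⟨rfl, rfl⟩⟩ := exists_e h
    · rw [he]; exact AS_arc e
    · rw [he]; exact (AS_arc e).symm
  vertex_free := by
    intro u v w h hw
    obtain ⟨e, he, hc⟩ := exists_e h
    rw [he] at hw
    obtain ⟨a, t, h1, h2, h3⟩ := mem_AS.mp hw
    have h4 := vx_eq _ (pt_reg e h1 h2) h3
    have h5 := vx_mem e.ok a t h1 h2 h4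
    have h6 : w = e.1.1 ∨ w = e.1.2 := by
      rcases h5 with h5 | h5
      · left; apply Fin.ext; unfold EIdx.i at h5; exact_mod_cast h5
      · right; apply Fin.ext; unfold EIdx.j at h5; exact_mod_cast h5
    rcases hc with ⟨rfl, rfl⟩ | ⟨rfl, rfl⟩
    · exact h6
    · exact h6.symm
  adjacent := by
    intro u v w huv huw hvw
    obtain ⟨e, he, hc⟩ := exists_e huv
    obtain ⟨f, hf, hd⟩ := exists_e huw
    have hne : e ≠ f := by
      rintro rfl
      rcases hc with ⟨h1, h2⟩ | ⟨h1, h2⟩ <;> rcases hd with ⟨h3, h4⟩ | ⟨h3, h4⟩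
      · exact hvw (h2.symm.trans h4)
      · exact huv.ne (h4.symm.trans h2)
      · exact huv.ne (h3.symm.trans h1)
      · exact hvw (h1.symm.trans h3)
    rw [he, hf]
    apply Subset.antisymm
    · rintro x ⟨hx, hx'⟩
      obtain ⟨a, t, k1, k2, rfl⟩ := mem_AS.mp hx
      obtain ⟨a', t', k1', k2', h'⟩ := mem_AS.mp hx'
      -- the indices as integers
      have hci : (e.i = ((u : ℕ) : ℤ) ∧ e.j = ((v : ℕ) : ℤ)) ∨
          (e.i = ((v : ℕ) : ℤ) ∧ e.j = ((u : ℕ) : ℤ)) := by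
        rcases hc with ⟨h1, h2⟩ | ⟨h1, h2⟩
        · left; unfold EIdx.i EIdx.j; rw [h1, h2]; exact ⟨rfl, rfl⟩
        · right; unfold EIdx.i EIdx.j; rw [h1, h2]; exact ⟨rfl, rfl⟩
      have hdi : (f.i = ((u : ℕ) : ℤ) ∧ f.j = ((w : ℕ) : ℤ)) ∨
          (f.i = ((w : ℕ) : ℤ) ∧ f.j = ((u : ℕ) : ℤ)) := by
        rcases hd with ⟨h1, h2⟩ | ⟨h1, h2⟩
        · left; unfold EIdx.i EIdx.j; rw [h1, h2]; exact ⟨rfl, rfl⟩
        · right; unfold EIdx.i EIdx.j; rw [h1, h2]; exact ⟨rfl, rfl⟩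
      have hvw' : ((v : ℕ) : ℤ) ≠ ((w : ℕ) : ℤ) := by
        intro h; apply hvw; apply Fin.ext; exact_mod_cast h
      have o1 := e.ok.hij
      have o2 := f.ok.hij
      rcases S_eq e f k1 k2 k1' k2' h'.symm with h | ⟨h, -⟩
      · rcases inter e.ok f.ok (by rintro ⟨q1, q2⟩; exact hne (EIdx.ext' q1 q2)) a a' t t'
          k1 k2 k1' k2' h with ⟨x, hv1, hv2, hx⟩ | ⟨h1, h2, h3, -⟩ | ⟨h1, h2, h3, -⟩
        · have : x = ((u : ℕ) : ℤ) := by
            rcases hci with ⟨c1, c2⟩ | ⟨c1, c2⟩ <;> rcases hdi with ⟨d1, d2⟩ | ⟨d1, d2⟩ <;> omega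
          rw [hx, this]; rfl
        · exfalso
          rcases hci with ⟨c1, c2⟩ | ⟨c1, c2⟩ <;> rcases hdi with ⟨d1, d2⟩ | ⟨d1, d2⟩ <;> omega
        · exfalso
          rcases hci with ⟨c1, c2⟩ | ⟨c1, c2⟩ <;> rcases hdi with ⟨d1, d2⟩ | ⟨d1, d2⟩ <;> omega
      · exact absurd h hne
    · rintro x rfl
      constructor
      · rcases hc with ⟨rfl, rfl⟩ | ⟨rfl, rfl⟩
        · exact (AS_arc e).left_mem
        · exact (AS_arc e).right_mem
      · rcases hd with ⟨h1, h2⟩ | ⟨h1, h2⟩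
        · rw [← h1]; exact (AS_arc f).left_mem
        · rw [← h2]; exact (AS_arc f).right_mem
  disjoint := by
    intro u v w z huv hwz h1 h2 h3 h4
    obtain ⟨e, he, hc⟩ := exists_e huv
    obtain ⟨f, hf, hd⟩ := exists_e hwz
    rw [he, hf]
    have n1 : e.i ≠ f.i := by
      intro h; unfold EIdx.i at h
      have h' : e.1.1 = f.1.1 := Fin.ext (by exact_mod_cast h)
      rcases hc with ⟨c1, c2⟩ | ⟨c1, c2⟩ <;> rcases hd with ⟨d1, d2⟩ | ⟨d1, d2⟩ <;>
        rw [c1, d1] at h' <;> simp_all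
    have n2 : e.i ≠ f.j := by
      intro h; unfold EIdx.i EIdx.j at h
      have h' : e.1.1 = f.1.2 := Fin.ext (by exact_mod_cast h)
      rcases hc with ⟨c1, c2⟩ | ⟨c1, c2⟩ <;> rcases hd with ⟨d1, d2⟩ | ⟨d1, d2⟩ <;>
        rw [c1, d2] at h' <;> simp_all
    have n3 : e.j ≠ f.i := by
      intro h; unfold EIdx.i EIdx.j at h
      have h' : e.1.2 = f.1.1 := Fin.ext (by exact_mod_cast h)
      rcases hc with ⟨c1, c2⟩ | ⟨c1, c2⟩ <;> rcases hd with ⟨d1, d2⟩ | ⟨d1, d2⟩ <;>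
        rw [c2, d1] at h' <;> simp_all
    have n4 : e.j ≠ f.j := by
      intro h; unfold EIdx.j at h
      have h' : e.1.2 = f.1.2 := Fin.ext (by exact_mod_cast h)
      rcases hc with ⟨c1, c2⟩ | ⟨c1, c2⟩ <;> rcases hd with ⟨d1, d2⟩ | ⟨d1, d2⟩ <;>
        rw [c2, d2] at h' <;> simp_all
    rcases lt_or_gt_of_ne n1 with h | h
    · exact cross e f h n3.symm n4.symm
    · obtain ⟨p, q1, q2⟩ := cross f e h n2 n4
      exact ⟨p, by rw [inter_comm]; exact q1, q2.symm⟩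

/-- transport along an isomorphism of graphs -/
def Thrackle.transport {X : Type} [TopologicalSpace X] {V W : Type*} {G : SimpleGraph V}
    {G' : SimpleGraph W} (φ : G ≃g G') (T : Thrackle X G') : Thrackle X G where
  pos := fun v => T.pos (φ v)
  arc := fun e => T.arc (e.map φ)
  pos_injective := T.pos_injective.comp φ.injective
  isArc := fun u v h => T.isArc _ _ (φ.map_adj_iff.mpr h)
  vertex_free := fun u v w h hw => by
    rcases T.vertex_free _ _ _ (φ.map_adj_iff.mpr h) hw with h | h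
    · exact Or.inl (φ.injective h)
    · exact Or.inr (φ.injective h)
  adjacent := fun u v w h h' hne =>
    T.adjacent _ _ _ (φ.map_adj_iff.mpr h) (φ.map_adj_iff.mpr h') (fun h => hne (φ.injective h))
  disjoint := fun u v w z h h' h1 h2 h3 h4 =>
    T.disjoint _ _ _ _ (φ.map_adj_iff.mpr h) (φ.map_adj_iff.mpr h')
      (fun h => h1 (φ.injective h)) (fun h => h2 (φ.injective h))
      (fun h => h3 (φ.injective h)) (fun h => h4 (φ.injective h))

lemma card_EIdx (n : ℕ) (G : SimpleGraph (Fin n)) : Nat.card (EIdx n G) = G.edgeSet.ncard := by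
  rw [← Nat.card_coe_set_eq]
  refine Nat.card_congr (Equiv.ofBijective
    (fun e : EIdx n G => (⟨s(e.1.1, e.1.2), e.2.2⟩ : G.edgeSet)) ⟨?_, ?_⟩)
  · intro e f h
    simp only [Subtype.mk.injEq, Sym2.eq_iff] at h
    have h1 := e.2.1
    have h2 := f.2.1
    rcases h with ⟨h, h'⟩ | ⟨h, h'⟩
    · exact Subtype.ext (Prod.ext h h')
    · rw [h, h'] at h1
      exact absurd h1 (lt_asymm h2)
  · rintro ⟨x, hx⟩
    induction x using Sym2.ind with
    | _ a b =>
      have hab : G.Adj a b := hx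
      rcases lt_or_gt_of_ne hab.ne with h | h
      · exact ⟨⟨(a, b), h, hab⟩, rfl⟩
      · refine ⟨⟨(b, a), h, hab.symm⟩, ?_⟩
        apply Subtype.ext
        exact Sym2.eq_swap

/-- Every finite graph with `m` edges can be thrackled on the surface of genus `4 m`. -/
theorem main {V : Type*} [Finite V] (G : SimpleGraph V) :
    CanBeThrackled G (4 * G.edgeSet.ncard) := by
  classical
  obtain ⟨n, ⟨f⟩⟩ := Finite.exists_equiv_fin V
  let G' : SimpleGraph (Fin n) := G.map f.toEmbedding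
  let φ : G ≃g G' := SimpleGraph.Iso.map f G
  have : Fintype (EIdx n G') := Fintype.ofFinite _
  refine ⟨EIdx n G' × Hd, inferInstance, cfg n G', ?_, ⟨(thr n G').transport φ⟩⟩
  rw [Fintype.card_prod]
  have h1 : Fintype.card Hd = 4 := rfl
  have h2 : Fintype.card (EIdx n G') = G.edgeSet.ncard := by
    rw [← Nat.card_eq_fintype_card, card_EIdx, ← Nat.card_coe_set_eq, ← Nat.card_coe_set_eq]
    exact (Nat.card_congr φ.mapEdgeSet).symm
  rw [h1, h2, mul_comm]

end Pool.Agent.R32.TG
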