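import Pool.Agent.R32.TG.Top

namespace Pool.Agent.R32.TG

open Set Topology

/-- the four handles of an edge -/
inductive Hd | A | B | C | D deriving DecidableEq, Fintype
/-- the five planar pieces of an edge -/
inductive Pc | v0 | v1 | h0 | h1 | s deriving DecidableEq

/-- first coordinate of the centre of a disc of the edge `(i, j)` -/
def cX (n i j : ℤ) : Hd → Bool → ℤ
  | .A, _ => 16*(n*i) + 16*j
  | .B, false => 16*(n*i) + 16*j
  | .B, true => 16*(n*i) + 16*n - 12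
  | .C, false => 16*(n*j) - 4
  | .C, true => 16*(n*j) + 16*n - 12
  | .D, false => 16*(n*j) + 16*i
  | .D, true => 16*(n*n) + 16
/-- second coordinate of the centre of a disc of the edge `(i, j)` -/
def cY (n i j : ℤ) : Hd → Bool → ℤ
  | .A, false => 16*(n*j) - 3
  | .A, true => 16*(n*j) + 16*n - 13
  | .B, false => 16*(n*n) + 17
  | .B, true => 16*(n*j) + 16*i - 1
  | .C, false => 16*(n*j) + 16*i + 1
  | .C, true => 16*(n*j) + 16*i - 1
  | .D, false => -31
  | .D, true => 16*(n*j) + 16*i - 1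

/-- first parameter of a piece -/
def lo (n i j : ℤ) : Pc → ℤ
  | .v0 => -48
  | .v1 => 16*(n*j) + 16*n - 12
  | .h0 => 16*(n*i) + 16*n - 12
  | .h1 => 16*(n*j) + 16*n - 12
  | .s => -48
/-- last parameter of a piece -/
def hi (n i j : ℤ) : Pc → ℤ
  | .v0 => 16*(n*j) - 4
  | .v1 => 16*(n*n) + 16
  | .h0 => 16*(n*j) - 4
  | .h1 => 16*(n*n) + 16
  | .s => -32

/-- the parametrisation of the pieces -/
noncomputable def pt (n i j : ℤ) : Pc → ℝ → ℂ
  | .v0, t => ⟨16*(n*i) + j*min 16 (t+48), t⟩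
  | .v1, t => ⟨16*(n*i) + j*min 16 (t+48), t⟩
  | .h0, t => ⟨t, 16*(n*j) + 16*i⟩
  | .h1, t => ⟨t, 16*(n*j) + 16*i⟩
  | .s, t => ⟨16*(n*j) + i*min 16 (t+48), t⟩

/-- where a piece touches a disc -/
def Inc (n i j : ℤ) : Pc → Hd → Bool → ℝ → Prop
  | .v0, .A, false, t => t = (hi n i j .v0 : ℤ)
  | .v1, .A, true, t => t = (lo n i j .v1 : ℤ)
  | .v1, .B, false, t => t = (hi n i j .v1 : ℤ)
  | .h0, .B, true, t => t = (lo n i j .h0 : ℤ)
  | .h0, .C, false, t => t = (hi n i j .h0 : ℤ)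
  | .h1, .C, true, t => t = (lo n i j .h1 : ℤ)
  | .h1, .D, true, t => t = (hi n i j .h1 : ℤ)
  | .s, .D, false, t => t = (hi n i j .s : ℤ)
  | _, _, _, _ => False

/-- an edge `(i, j)` -/
structure Ok (n i j : ℤ) : Prop where
  hi : 0 ≤ i
  hij : i < j
  hj : j < n

lemma facts {n i j : ℤ} (h : Ok n i j) : 0 ≤ n*i ∧ n*i + n ≤ n*j ∧ n*j + n ≤ n*n := by
  obtain ⟨h1, h2, h3⟩ := h
  refine ⟨by nlinarith, by nlinarith, by nlinarith⟩

lemma cmp (n i k : ℤ) (hn : 0 < n) :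
    (i = k ∧ n*i = n*k) ∨ (i < k ∧ n*i + n ≤ n*k) ∨ (k < i ∧ n*k + n ≤ n*i) := by
  rcases lt_trichotomy i k with h | h | h
  · right; left; exact ⟨h, by nlinarith⟩
  · left; exact ⟨h, by rw [h]⟩
  · right; right; exact ⟨h, by nlinarith⟩

lemma disc_disj {n i j k l : ℤ} (h : Ok n i j) (h' : Ok n k l) (s s' : Hd) (b b' : Bool)
    (hne : s = s' → b = b' → ¬ (i = k ∧ j = l)) :
    (cX n i j s b + 3 ≤ cX n k l s' b' ∨ cX n k l s' b' + 3 ≤ cX n i j s b) ∨
    (cY n i j s b + 3 ≤ cY n k l s' b' ∨ cY n k l s' b' + 3 ≤ cY n i j s b) := by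
  obtain ⟨f1, f2, f3⟩ := facts h
  obtain ⟨g1, g2, g3⟩ := facts h'
  obtain ⟨a1, a2, a3⟩ := h
  obtain ⟨b1, b2, b3⟩ := h'
  have c1 := cmp n i k (by omega)
  have c2 := cmp n j l (by omega)
  cases s <;> cases s' <;> cases b <;> cases b' <;>
    simp only [cX, cY, reduceCtorEq, false_implies, true_implies] at hne ⊢ <;> omega

/-- the centre of a disc -/
noncomputable def cen (n i j : ℤ) (s : Hd) (b : Bool) : ℂ := ⟨(cX n i j s b : ℤ), (cY n i j s b : ℤ)⟩

lemma box {p : ℂ} {x y : ℤ} (h : ‖p - ⟨(x:ℝ),(y:ℝ)⟩‖ ≤ 1) :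
    (x:ℝ) - 1 ≤ p.re ∧ p.re ≤ x + 1 ∧ (y:ℝ) - 1 ≤ p.im ∧ p.im ≤ y + 1 ∧
      (p.re - x)^2 + (p.im - y)^2 ≤ 1 := by
  have h1 : (p.re - x)^2 + (p.im - y)^2 ≤ 1 := by
    have h2 : ‖p - ⟨(x:ℝ),(y:ℝ)⟩‖^2 ≤ 1 := by
      have := norm_nonneg (p - ⟨(x:ℝ),(y:ℝ)⟩)
      nlinarith
    rw [← Complex.normSq_eq_norm_sq, Complex.normSq_apply] at h2
    simp only [Complex.sub_re, Complex.sub_im] at h2
    nlinarith
  refine ⟨by nlinarith, by nlinarith, by nlinarith, by nlinarith, h1⟩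

lemma cY_ge {n i j : ℤ} (h : Ok n i j) (s : Hd) (b : Bool) : -31 ≤ cY n i j s b := by
  obtain ⟨f1, f2, f3⟩ := facts h
  obtain ⟨a1, a2, a3⟩ := h
  cases s <;> cases b <;> simp only [cY] <;> omega

/-- integer facts about the discs met by a piece -/
def IncT : Pc → Hd → Bool → Prop
  | .v0, .A, false => True
  | .v1, .A, true => True
  | .v1, .B, false => True
  | .h0, .B, true => True
  | .h0, .C, false => True
  | .h1, .C, true => True
  | .h1, .D, true => True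
  | .s, .D, false => True
  | _, _, _ => False

lemma avoid_v0 {n i j k l : ℤ} (h : Ok n i j) (h' : Ok n k l) (s : Hd) (b : Bool)
    (h1 : cX n k l s b - 1 ≤ 16*(n*i) + 16*j) (h2 : 16*(n*i) + 16*j ≤ cX n k l s b + 1)
    (h3 : cY n k l s b - 1 ≤ hi n i j .v0) :
    k = i ∧ l = j ∧ IncT .v0 s b := by
  obtain ⟨f1, f2, f3⟩ := facts h
  obtain ⟨g1, g2, g3⟩ := facts h'
  obtain ⟨a1, a2, a3⟩ := h
  obtain ⟨b1, b2, b3⟩ := h'
  have c1 := cmp n i k (by omega)
  have c2 := cmp n j l (by omega)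
  have c3 := cmp n i l (by omega)
  cases s <;> cases b <;> simp only [cX, cY, lo, hi, IncT, and_true, and_false] at * <;> omega

lemma avoid_v1 {n i j k l : ℤ} (h : Ok n i j) (h' : Ok n k l) (s : Hd) (b : Bool)
    (h1 : cX n k l s b - 1 ≤ 16*(n*i) + 16*j) (h2 : 16*(n*i) + 16*j ≤ cX n k l s b + 1)
    (h4 : lo n i j .v1 ≤ cY n k l s b + 1) :
    k = i ∧ l = j ∧ IncT .v1 s b := by
  obtain ⟨f1, f2, f3⟩ := facts h
  obtain ⟨g1, g2, g3⟩ := facts h'
  obtain ⟨a1, a2, a3⟩ := h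
  obtain ⟨b1, b2, b3⟩ := h'
  have c1 := cmp n i k (by omega)
  have c2 := cmp n j l (by omega)
  have c3 := cmp n i l (by omega)
  cases s <;> cases b <;> simp only [cX, cY, lo, hi, IncT, and_true, and_false] at * <;> omega

lemma avoid_s {n i j k l : ℤ} (h : Ok n i j) (h' : Ok n k l) (s : Hd) (b : Bool)
    (h1 : cX n k l s b - 1 ≤ 16*(n*j) + 16*i) (h2 : 16*(n*j) + 16*i ≤ cX n k l s b + 1)
    (h3 : cY n k l s b - 1 ≤ hi n i j .s) :
    k = i ∧ l = j ∧ IncT .s s b := by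
  obtain ⟨f1, f2, f3⟩ := facts h
  obtain ⟨g1, g2, g3⟩ := facts h'
  obtain ⟨a1, a2, a3⟩ := h
  obtain ⟨b1, b2, b3⟩ := h'
  have c1 := cmp n i k (by omega)
  have c2 := cmp n j l (by omega)
  have c3 := cmp n j k (by omega)
  cases s <;> cases b <;> simp only [cX, cY, lo, hi, IncT, and_true, and_false] at * <;> omega

lemma avoid_h0 {n i j k l : ℤ} (h : Ok n i j) (h' : Ok n k l) (s : Hd) (b : Bool)
    (h1 : cY n k l s b - 1 ≤ 16*(n*j) + 16*i) (h2 : 16*(n*j) + 16*i ≤ cY n k l s b + 1)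
    (h3 : cX n k l s b - 1 ≤ hi n i j .h0) (h4 : lo n i j .h0 ≤ cX n k l s b + 1) :
    k = i ∧ l = j ∧ IncT .h0 s b := by
  obtain ⟨f1, f2, f3⟩ := facts h
  obtain ⟨g1, g2, g3⟩ := facts h'
  obtain ⟨a1, a2, a3⟩ := h
  obtain ⟨b1, b2, b3⟩ := h'
  have c1 := cmp n i k (by omega)
  have c2 := cmp n j l (by omega)
  cases s <;> cases b <;> simp only [cX, cY, lo, hi, IncT, and_true, and_false] at * <;> omega

lemma avoid_h1 {n i j k l : ℤ} (h : Ok n i j) (h' : Ok n k l) (s : Hd) (b : Bool)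
    (h1 : cY n k l s b - 1 ≤ 16*(n*j) + 16*i) (h2 : 16*(n*j) + 16*i ≤ cY n k l s b + 1)
    (h3 : cX n k l s b - 1 ≤ hi n i j .h1) (h4 : lo n i j .h1 ≤ cX n k l s b + 1) :
    k = i ∧ l = j ∧ IncT .h1 s b := by
  obtain ⟨f1, f2, f3⟩ := facts h
  obtain ⟨g1, g2, g3⟩ := facts h'
  obtain ⟨a1, a2, a3⟩ := h
  obtain ⟨b1, b2, b3⟩ := h'
  have c1 := cmp n i k (by omega)
  have c2 := cmp n j l (by omega)
  cases s <;> cases b <;> simp only [cX, cY, lo, hi, IncT, and_true, and_false] at * <;> omega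

lemma avoid {n i j k l : ℤ} (h : Ok n i j) (h' : Ok n k l) (a : Pc) (t : ℝ)
    (h1 : (lo n i j a : ℝ) ≤ t) (h2 : t ≤ hi n i j a) (s : Hd) (b : Bool)
    (hd : ‖pt n i j a t - cen n k l s b‖ ≤ 1) : k = i ∧ l = j ∧ Inc n i j a s b t := by
  have hY := cY_ge h' s b
  have hYr : (-31 : ℝ) ≤ (cY n k l s b : ℝ) := by exact_mod_cast hY
  obtain ⟨x1, x2, y1, y2, q⟩ := box hd
  cases a with
  | v0 =>
    simp only [pt] at x1 x2 y1 y2 q
    have hm : min 16 (t + 48) = 16 := min_eq_left (by linarith)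
    rw [hm] at x1 x2 q
    obtain ⟨rfl, rfl, hI⟩ := avoid_v0 h h' s b (by
      have : (cX n k l s b : ℝ) - 1 ≤ 16*(n*i) + 16*j := by linarith
      exact_mod_cast this) (by
      have : (16*(n*i) + 16*j : ℝ) ≤ cX n k l s b + 1 := by linarith
      exact_mod_cast this) (by
      have : (cY n k l s b : ℝ) - 1 ≤ hi n i j .v0 := by linarith
      exact_mod_cast this)
    refine ⟨rfl, rfl, ?_⟩
    cases s <;> cases b <;> simp only [IncT] at hI
    simp only [Inc]
    simp only [hi, cY] at h2 y1 ⊢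
    push_cast at *
    linarith
  | v1 =>
    simp only [pt] at x1 x2 y1 y2 q
    have hm : min 16 (t + 48) = 16 := min_eq_left (by linarith)
    rw [hm] at x1 x2 q
    obtain ⟨rfl, rfl, hI⟩ := avoid_v1 h h' s b (by
      have : (cX n k l s b : ℝ) - 1 ≤ 16*(n*i) + 16*j := by linarith
      exact_mod_cast this) (by
      have : (16*(n*i) + 16*j : ℝ) ≤ cX n k l s b + 1 := by linarith
      exact_mod_cast this) (by
      have : (lo n i j .v1 : ℝ) ≤ cY n k l s b + 1 := by linarith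
      exact_mod_cast this)
    refine ⟨rfl, rfl, ?_⟩
    cases s <;> cases b <;> simp only [IncT] at hI
    all_goals
      simp only [Inc]
      simp only [hi, lo, cY] at h1 h2 y1 y2 ⊢
      push_cast at *
      linarith
  | s =>
    simp only [pt] at x1 x2 y1 y2 q
    have hm : min 16 (t + 48) = 16 := min_eq_left (by linarith)
    rw [hm] at x1 x2 q
    obtain ⟨rfl, rfl, hI⟩ := avoid_s h h' s b (by
      have : (cX n k l s b : ℝ) - 1 ≤ 16*(n*j) + 16*i := by linarith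
      exact_mod_cast this) (by
      have : (16*(n*j) + 16*i : ℝ) ≤ cX n k l s b + 1 := by linarith
      exact_mod_cast this) (by
      have : (cY n k l s b : ℝ) - 1 ≤ hi n i j .s := by linarith
      exact_mod_cast this)
    refine ⟨rfl, rfl, ?_⟩
    cases s <;> cases b <;> simp only [IncT] at hI
    simp only [Inc]
    simp only [hi, cY] at h2 y1 ⊢
    push_cast at *
    linarith
  | h0 =>
    simp only [pt] at x1 x2 y1 y2 q
    obtain ⟨rfl, rfl, hI⟩ := avoid_h0 h h' s b (by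
      have : (cY n k l s b : ℝ) - 1 ≤ 16*(n*j) + 16*i := by linarith
      exact_mod_cast this) (by
      have : (16*(n*j) + 16*i : ℝ) ≤ cY n k l s b + 1 := by linarith
      exact_mod_cast this) (by
      have : (cX n k l s b : ℝ) - 1 ≤ hi n i j .h0 := by linarith
      exact_mod_cast this) (by
      have : (lo n i j .h0 : ℝ) ≤ cX n k l s b + 1 := by linarith
      exact_mod_cast this)
    refine ⟨rfl, rfl, ?_⟩
    cases s <;> cases b <;> simp only [IncT] at hI
    all_goals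
      simp only [Inc]
      simp only [hi, lo, cX, cY] at q ⊢
      push_cast at *
      nlinarith
  | h1 =>
    simp only [pt] at x1 x2 y1 y2 q
    obtain ⟨rfl, rfl, hI⟩ := avoid_h1 h h' s b (by
      have : (cY n k l s b : ℝ) - 1 ≤ 16*(n*j) + 16*i := by linarith
      exact_mod_cast this) (by
      have : (16*(n*j) + 16*i : ℝ) ≤ cY n k l s b + 1 := by linarith
      exact_mod_cast this) (by
      have : (cX n k l s b : ℝ) - 1 ≤ hi n i j .h1 := by linarith
      exact_mod_cast this) (by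
      have : (lo n i j .h1 : ℝ) ≤ cX n k l s b + 1 := by linarith
      exact_mod_cast this)
    refine ⟨rfl, rfl, ?_⟩
    cases s <;> cases b <;> simp only [IncT] at hI
    all_goals
      simp only [Inc]
      simp only [hi, lo, cX, cY] at q ⊢
      push_cast at *
      nlinarith

end Pool.Agent.R32.TG
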