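import Pool.Agent.R32.TG.Geo

namespace Pool.Agent.R32.TG

open Set Topology

/-- two generalised columns meet only at the vertex -/
lemma col_inter {n v w v' w' : ℤ} (hw : 0 ≤ w) (hw1 : w < n) (hw' : 0 ≤ w') (hw1' : w' < n)
    {τ : ℝ} (h0 : 0 ≤ τ) (h1 : τ ≤ 16)
    (h : (16*(n*v) + w*τ : ℝ) = 16*(n*v') + w'*τ) : v = v' ∧ (w = w' ∨ τ = 0) := by
  have aux : ∀ {v w v' w' : ℤ}, 0 ≤ w → w < n → 0 ≤ w' → w' < n →
      (16*(n*v) + w*τ : ℝ) = 16*(n*v') + w'*τ → ¬ v < v' := by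
    intro v w v' w' hw hw1 hw' hw1' h hv
    have hn : 0 < n := by omega
    have e1 : n*v + n ≤ n*v' := by nlinarith
    have e2 : ((n*v + n : ℤ) : ℝ) ≤ ((n*v' : ℤ) : ℝ) := by exact_mod_cast e1
    push_cast at e2
    have e3 : (w : ℝ) ≤ n - 1 := by
      have : w ≤ n - 1 := by omega
      exact_mod_cast this
    have e4 : (0 : ℝ) ≤ w := by exact_mod_cast hw
    have e5 : (0 : ℝ) ≤ w' := by exact_mod_cast hw'
    have e6 : (w : ℝ) * τ ≤ (n - 1) * 16 := mul_le_mul e3 h1 h0 (by linarith)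
    have e7 : 0 ≤ (w' : ℝ) * τ := mul_nonneg e5 h0
    linarith
  have hv : v = v' := by
    rcases lt_trichotomy v v' with hv | hv | hv
    · exact absurd hv (aux hw hw1 hw' hw1' h)
    · exact hv
    · exact absurd hv (aux hw' hw1' hw hw1 h.symm)
  subst hv
  refine ⟨rfl, ?_⟩
  have : ((w : ℝ) - w') * τ = 0 := by linarith
  rcases mul_eq_zero.mp this with h2 | h2
  · left
    have : (w : ℝ) = w' := by linarith
    exact_mod_cast this
  · right; exact h2

lemma tau_bounds {t : ℝ} (h : -48 ≤ t) : 0 ≤ min 16 (t+48) ∧ min 16 (t+48) ≤ 16 :=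
  ⟨le_min (by norm_num) (by linarith), min_le_left _ _⟩

lemma tau_zero {t : ℝ} (h : min (16:ℝ) (t+48) = 0) : t = -48 := by
  rcases min_choice (16:ℝ) (t+48) with h1 | h1
  · rw [h1] at h; norm_num at h
  · rw [h1] at h; linarith

/-- a vertex -/
noncomputable def vx (n v : ℤ) : ℂ := ⟨16*(n*v), -48⟩

/-- real facts -/
lemma factsR {n i j : ℤ} (h : Ok n i j) : (0:ℝ) ≤ n*i ∧ (n*i + n : ℝ) ≤ n*j ∧ (n*j + n : ℝ) ≤ n*n ∧
    (0:ℝ) ≤ i ∧ (i + 1 : ℝ) ≤ j ∧ (j + 1 : ℝ) ≤ n := by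
  obtain ⟨f1, f2, f3⟩ := facts h
  obtain ⟨a1, a2, a3⟩ := h
  refine ⟨by exact_mod_cast f1, by exact_mod_cast f2, by exact_mod_cast f3, by exact_mod_cast a1,
    by exact_mod_cast a2, by exact_mod_cast a3⟩

lemma inter_same {n i j : ℤ} (h : Ok n i j) (a a' : Pc) (t t' : ℝ)
    (h1 : (lo n i j a : ℝ) ≤ t) (h2 : t ≤ hi n i j a)
    (h1' : (lo n i j a' : ℝ) ≤ t') (h2' : t' ≤ hi n i j a')
    (he : pt n i j a t = pt n i j a' t') : a = a' ∧ t = t' := by
  obtain ⟨r1, r2, r3, r4, r5, r6⟩ := factsR h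
  have col : ∀ {τ : ℝ}, 0 ≤ τ → τ ≤ 16 → (16*(n*i) + j*τ : ℝ) = 16*(n*j) + i*τ → False := by
    intro τ ht0 ht1 hh
    have := (col_inter (n := n) (v := i) (w := j) (v' := j) (w' := i) (by have := h.hi; have := h.hij; omega)
      h.hj h.hi (by have := h.hij; have := h.hj; omega) ht0 ht1 hh).1
    have := h.hij; omega
  cases a <;> cases a' <;>
    simp only [pt, lo, hi, Complex.mk.injEq, reduceCtorEq, false_and, true_and] at * <;>
    push_cast at * <;> first
    | linarith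
    | (obtain ⟨e1, e2⟩ := he; subst e2; exact col (tau_bounds (by linarith)).1 (tau_bounds (by linarith)).2 e1)
    | (obtain ⟨e1, e2⟩ := he; subst e2; exact col (tau_bounds (by linarith)).1 (tau_bounds (by linarith)).2 e1.symm)

/-- the piece is horizontal -/
def IsH : Pc → Prop
  | .h0 => True
  | .h1 => True
  | _ => False

/-- the piece is vertical -/
def IsV : Pc → Prop
  | .v0 => True
  | .v1 => True
  | _ => False

lemma hv_int {n i j k l : ℤ} (h : Ok n i j) (h' : Ok n k l) (a a' : Pc) (ha : IsH a) (ha' : IsV a')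
    (h1 : lo n i j a ≤ 16*(n*k) + 16*l) (h2 : 16*(n*k) + 16*l ≤ hi n i j a)
    (h3 : lo n k l a' ≤ 16*(n*j) + 16*i) (h4 : 16*(n*j) + 16*i ≤ hi n k l a') :
    i < k ∧ k ≠ j ∧ l ≠ j := by
  obtain ⟨f1, f2, f3⟩ := facts h
  obtain ⟨g1, g2, g3⟩ := facts h'
  obtain ⟨a1, a2, a3⟩ := h
  obtain ⟨b1, b2, b3⟩ := h'
  have c1 := cmp n i k (by omega)
  have c2 := cmp n j l (by omega)
  have c3 := cmp n j k (by omega)
  cases a <;> cases a' <;> simp only [IsH, IsV] at ha ha' <;> simp only [lo, hi] at * <;> omega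

lemma hv_inter {n i j k l : ℤ} (h : Ok n i j) (h' : Ok n k l) (a a' : Pc) (ha : IsH a)
    (t t' : ℝ) (h1 : (lo n i j a : ℝ) ≤ t) (h2 : t ≤ hi n i j a)
    (h1' : (lo n k l a' : ℝ) ≤ t') (h2' : t' ≤ hi n k l a')
    (ha' : ¬ IsH a')
    (he : pt n i j a t = pt n k l a' t') :
    IsV a' ∧ i < k ∧ k ≠ j ∧ l ≠ j ∧ pt n i j a t = ⟨16*(n*k) + 16*l, 16*(n*j) + 16*i⟩ := by
  obtain ⟨r1, r2, r3, r4, r5, r6⟩ := factsR h
  have him : (pt n i j a t).im = 16*(n*j) + 16*i := by
    cases a <;> simp only [IsH] at ha <;> simp [pt]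
  have hre : (pt n i j a t).re = t := by
    cases a <;> simp only [IsH] at ha <;> simp [pt]
  have him' : (pt n k l a' t').im = t' := by
    cases a' <;> simp only [IsH, not_true_eq_false] at ha' <;> simp [pt]
  have ht' : t' = 16*(n*j) + 16*i := by rw [← him', ← he, him]
  have hpos : (0:ℝ) ≤ t' := by rw [ht']; nlinarith
  have hV : IsV a' := by
    cases a' <;> simp only [IsH, IsV, not_true_eq_false] at ha' ⊢
    simp only [hi] at h2'
    push_cast at h2'
    linarith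
  have hm : min 16 (t' + 48) = 16 := min_eq_left (by linarith)
  have hre' : (pt n k l a' t').re = 16*(n*k) + 16*l := by
    cases a' <;> simp only [IsV] at hV <;> simp only [pt] <;> rw [hm] <;> ring
  have ht : t = 16*(n*k) + 16*l := by rw [← hre, he, hre']
  have key := hv_int h h' a a' ha hV
    (by have : (lo n i j a : ℝ) ≤ 16*(n*k) + 16*l := by rw [← ht]; exact h1
        exact_mod_cast this)
    (by have : (16*(n*k) + 16*l : ℝ) ≤ hi n i j a := by rw [← ht]; exact h2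
        exact_mod_cast this)
    (by have : (lo n k l a' : ℝ) ≤ 16*(n*j) + 16*i := by rw [← ht']; exact h1'
        exact_mod_cast this)
    (by have : (16*(n*j) + 16*i : ℝ) ≤ hi n k l a' := by rw [← ht']; exact h2'
        exact_mod_cast this)
  refine ⟨hV, key.1, key.2.1, key.2.2, ?_⟩
  apply Complex.ext
  · rw [hre, ht]
  · rw [him]

/-- the column of a non-horizontal piece -/
def colOf (i j : ℤ) : Pc → ℤ × ℤ
  | .s => (j, i)
  | _ => (i, j)

lemma pt_col {n i j : ℤ} {a : Pc} (ha : ¬ IsH a) (t : ℝ) :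
    pt n i j a t = ⟨16*(n*(colOf i j a).1) + (colOf i j a).2*min 16 (t+48), t⟩ := by
  cases a <;> simp only [IsH, not_true_eq_false] at ha <;> simp [pt, colOf]

lemma lo_ge {n i j : ℤ} (h : Ok n i j) {a : Pc} (ha : ¬ IsH a) : -48 ≤ lo n i j a := by
  obtain ⟨f1, f2, f3⟩ := facts h
  obtain ⟨a1, a2, a3⟩ := h
  cases a <;> simp only [IsH, not_true_eq_false] at ha <;> simp only [lo] <;> omega

lemma colOf_ok {n i j : ℤ} (h : Ok n i j) (a : Pc) :
    0 ≤ (colOf i j a).2 ∧ (colOf i j a).2 < n ∧ ((colOf i j a).1 = i ∨ (colOf i j a).1 = j) := by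
  obtain ⟨a1, a2, a3⟩ := h
  cases a <;> refine ⟨?_, ?_, ?_⟩ <;> simp [colOf] <;> omega

lemma inter {n i j k l : ℤ} (h : Ok n i j) (h' : Ok n k l) (hne : ¬ (i = k ∧ j = l)) (a a' : Pc)
    (t t' : ℝ) (h1 : (lo n i j a : ℝ) ≤ t) (h2 : t ≤ hi n i j a)
    (h1' : (lo n k l a' : ℝ) ≤ t') (h2' : t' ≤ hi n k l a')
    (he : pt n i j a t = pt n k l a' t') :
    (∃ v : ℤ, (v = i ∨ v = j) ∧ (v = k ∨ v = l) ∧ pt n i j a t = vx n v) ∨
    (i < k ∧ k ≠ j ∧ l ≠ j ∧ pt n i j a t = ⟨16*(n*k) + 16*l, 16*(n*j) + 16*i⟩) ∨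
    (k < i ∧ i ≠ l ∧ j ≠ l ∧ pt n i j a t = ⟨16*(n*i) + 16*j, 16*(n*l) + 16*k⟩) := by
  by_cases ha : IsH a
  · by_cases ha' : IsH a'
    · exfalso
      have e1 : (pt n i j a t).im = 16*(n*j) + 16*i := by
        cases a <;> simp only [IsH] at ha <;> simp [pt]
      have e2 : (pt n k l a' t').im = 16*(n*l) + 16*k := by
        cases a' <;> simp only [IsH] at ha' <;> simp [pt]
      have e3 : (16*(n*j) + 16*i : ℝ) = 16*(n*l) + 16*k := by rw [← e1, ← e2, he]
      have e4 : (16*(n*j) + 16*i : ℤ) = 16*(n*l) + 16*k := by exact_mod_cast e3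
      obtain ⟨a1, a2, a3⟩ := h
      obtain ⟨b1, b2, b3⟩ := h'
      have c2 := cmp n j l (by omega)
      omega
    · right; left
      exact (hv_inter h h' a a' ha t t' h1 h2 h1' h2' ha' he).2
  · by_cases ha' : IsH a'
    · right; right
      have := (hv_inter h' h a' a ha' t' t h1' h2' h1 h2 ha he.symm).2
      rw [he]
      exact this
    · left
      have l1 : (-48 : ℝ) ≤ lo n i j a := by exact_mod_cast lo_ge h ha
      rw [pt_col ha, pt_col ha'] at he
      simp only [Complex.mk.injEq] at he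
      obtain ⟨e1, e2⟩ := he
      subst e2
      obtain ⟨o1, o2, o3⟩ := colOf_ok h a
      obtain ⟨p1, p2, p3⟩ := colOf_ok h' a'
      obtain ⟨hv, hw⟩ := col_inter o1 o2 p1 p2 (tau_bounds (by linarith)).1
        (tau_bounds (by linarith)).2 e1
      rcases hw with hw | hw
      · exfalso
        have := h.hij
        have := h'.hij
        cases a <;> cases a' <;> simp only [colOf] at hv hw <;> omega
      · refine ⟨(colOf i j a).1, o3, by rw [hv]; exact p3, ?_⟩
        rw [pt_col ha]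
        have := tau_zero hw
        subst this
        simp only [vx]
        rw [hw]; simp

/-- a vertex is on an edge only if it is an end vertex -/
lemma vx_mem {n i j v : ℤ} (h : Ok n i j) (a : Pc) (t : ℝ)
    (h1 : (lo n i j a : ℝ) ≤ t) (h2 : t ≤ hi n i j a) (he : pt n i j a t = vx n v) :
    v = i ∨ v = j := by
  obtain ⟨r1, r2, r3, r4, r5, r6⟩ := factsR h
  by_cases ha : IsH a
  · exfalso
    have e1 : (pt n i j a t).im = 16*(n*j) + 16*i := by
      cases a <;> simp only [IsH] at ha <;> simp [pt]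
    rw [he] at e1
    simp only [vx] at e1
    nlinarith
  · obtain ⟨o1, o2, o3⟩ := colOf_ok h a
    rw [pt_col ha, vx, Complex.mk.injEq] at he
    obtain ⟨e1, e2⟩ := he
    subst e2
    have hm : min (16:ℝ) (-48 + 48) = 0 := by norm_num
    rw [hm] at e1
    have e3 : ((colOf i j a).1 : ℝ) = v := by
      have hn : (0:ℝ) < n := by linarith
      have e4 : (n:ℝ) * (colOf i j a).1 = n * v := by linarith
      exact mul_left_cancel₀ hn.ne' e4
    have e5 : (colOf i j a).1 = v := by exact_mod_cast e3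
    rw [← e5]; exact o3

end Pool.Agent.R32.TG
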