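import Pool.Agent.R32.TG.Inter

namespace Pool.Agent.R32.TG

open Set Topology

/-- The edges of `G` with increasing end vertices. -/
abbrev EIdx (n : ℕ) (G : SimpleGraph (Fin n)) : Type :=
  {p : Fin n × Fin n // p.1 < p.2 ∧ G.Adj p.1 p.2}

variable {n : ℕ} {G : SimpleGraph (Fin n)}

/-- the smaller end vertex -/
def EIdx.i (e : EIdx n G) : ℤ := ((e.1.1 : ℕ) : ℤ)
/-- the larger end vertex -/
def EIdx.j (e : EIdx n G) : ℤ := ((e.1.2 : ℕ) : ℤ)

lemma EIdx.ok (e : EIdx n G) : Ok (n : ℤ) e.i e.j := by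
  obtain ⟨⟨a, b⟩, h1, h2⟩ := e
  refine ⟨?_, ?_, ?_⟩
  · simp [EIdx.i]
  · simp only [EIdx.i, EIdx.j]
    exact_mod_cast h1
  · simp only [EIdx.j]
    exact_mod_cast b.2

lemma EIdx.ext' {e f : EIdx n G} (h1 : e.i = f.i) (h2 : e.j = f.j) : e = f := by
  apply Subtype.ext
  apply Prod.ext
  · apply Fin.ext
    unfold EIdx.i at h1
    exact_mod_cast h1
  · apply Fin.ext
    unfold EIdx.j at h2
    exact_mod_cast h2

/-- the discs of the drawing -/
noncomputable def cfg (n : ℕ) (G : SimpleGraph (Fin n)) : HandleConfig (EIdx n G × Hd) where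
  c := fun x b => cen n x.1.i x.1.j x.2 b
  disj := by
    rintro ⟨e, s⟩ b ⟨f, s'⟩ b' hne
    have key := disc_disj e.ok f.ok s s' b b' (by
      rintro rfl rfl ⟨h1, h2⟩
      apply hne
      rw [EIdx.ext' h1 h2])
    simp only
    rcases key with key | key
    · have h1 : 3 ≤ |(cen n e.i e.j s b - cen n f.i f.j s' b').re| := by
        simp only [cen, Complex.sub_re]
        rw [le_abs]
        rcases key with key | key
        · right
          have : ((cX n e.i e.j s b : ℤ) : ℝ) + 3 ≤ (cX n f.i f.j s' b' : ℤ) := by exact_mod_cast key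
          linarith
        · left
          have : ((cX n f.i f.j s' b' : ℤ) : ℝ) + 3 ≤ (cX n e.i e.j s b : ℤ) := by exact_mod_cast key
          linarith
      have h2 := Complex.abs_re_le_norm (cen n e.i e.j s b - cen n f.i f.j s' b')
      linarith
    · have h1 : 3 ≤ |(cen n e.i e.j s b - cen n f.i f.j s' b').im| := by
        simp only [cen, Complex.sub_im]
        rw [le_abs]
        rcases key with key | key
        · right
          have : ((cY n e.i e.j s b : ℤ) : ℝ) + 3 ≤ (cY n f.i f.j s' b' : ℤ) := by exact_mod_cast key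
          linarith
        · left
          have : ((cY n f.i f.j s' b' : ℤ) : ℝ) + 3 ≤ (cY n e.i e.j s b : ℤ) := by exact_mod_cast key
          linarith
      have h2 := Complex.abs_im_le_norm (cen n e.i e.j s b - cen n f.i f.j s' b')
      linarith

/-- the point of contact on a circle -/
lemma Inc_pt {n i j : ℤ} (h : Ok n i j) {a : Pc} {s : Hd} {b : Bool} {t : ℝ}
    (hI : Inc n i j a s b t) :
    pt n i j a t = cen n i j s b + (if b then Complex.I else -Complex.I) := by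
  obtain ⟨r1, r2, r3, r4, r5, r6⟩ := factsR h
  cases a <;> cases s <;> cases b <;> simp only [Inc] at hI <;> subst hI <;>
    simp only [pt, cen, hi, lo, cX, cY] <;> apply Complex.ext <;>
    simp only [Complex.add_re, Complex.add_im, Complex.neg_re, Complex.neg_im, Complex.I_re,
      Complex.I_im, if_true, Bool.false_eq_true, if_false] <;> push_cast <;> first
    | ring1
    | (rw [min_eq_left (by nlinarith)]; ring1)
    | (rw [min_eq_left (by norm_num)]; ring1)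

lemma Inc_norm {n i j : ℤ} (h : Ok n i j) {a : Pc} {s : Hd} {b : Bool} {t : ℝ}
    (hI : Inc n i j a s b t) : ‖pt n i j a t - cen n i j s b‖ = 1 := by
  rw [Inc_pt h hI]
  cases b <;> simp

lemma pt_reg (e : EIdx n G) {a : Pc} {t : ℝ} (h1 : (lo n e.i e.j a : ℝ) ≤ t)
    (h2 : t ≤ hi n e.i e.j a) : pt n e.i e.j a t ∈ (cfg n G).Reg := by
  intro k b
  by_contra hlt
  have hlt' := (not_le.mp hlt).le
  obtain ⟨e1, e2, hI⟩ := avoid e.ok k.1.ok a t h1 h2 k.2 b hlt'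
  have := Inc_norm e.ok hI
  apply hlt
  have : (cfg n G).c k b = cen n e.i e.j k.2 b := by
    change cen n k.1.i k.1.j k.2 b = _
    rw [e1, e2]
  rw [this]
  linarith

lemma S_eq (e f : EIdx n G) {a a' : Pc} {t t' : ℝ} (h1 : (lo n e.i e.j a : ℝ) ≤ t)
    (h2 : t ≤ hi n e.i e.j a) (h1' : (lo n f.i f.j a' : ℝ) ≤ t')
    (h2' : t' ≤ hi n f.i f.j a')
    (he : (cfg n G).toS (pt n e.i e.j a t) = (cfg n G).toS (pt n f.i f.j a' t')) :
    pt n e.i e.j a t = pt n f.i f.j a' t' ∨ (e = f ∧ ∃ s,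
      (Inc n e.i e.j a s false t ∧ Inc n e.i e.j a' s true t') ∨
      (Inc n e.i e.j a s true t ∧ Inc n e.i e.j a' s false t')) := by
  rcases (cfg n G).toS_eq (pt_reg e h1 h2) (pt_reg f h1' h2') he with h | h | h
  · exact Or.inl h
  · right
    obtain ⟨k, q1, q2⟩ := HandleConfig.PG.left _ h
    obtain ⟨e1, e2, hI⟩ := avoid e.ok k.1.ok a t h1 h2 k.2 false q1.le
    obtain ⟨e1', e2', hI'⟩ := avoid f.ok k.1.ok a' t' h1' h2' k.2 true q2.le
    have hke : k.1 = e := EIdx.ext' e1 e2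
    have hkf : k.1 = f := EIdx.ext' e1' e2'
    have hef : e = f := hke.symm.trans hkf
    subst hef
    exact ⟨rfl, k.2, Or.inl ⟨hI, hI'⟩⟩
  · right
    obtain ⟨k, q1, q2⟩ := HandleConfig.PG.left _ h
    obtain ⟨e1, e2, hI⟩ := avoid e.ok k.1.ok a t h1 h2 k.2 true q2.le
    obtain ⟨e1', e2', hI'⟩ := avoid f.ok k.1.ok a' t' h1' h2' k.2 false q1.le
    have hke : k.1 = e := EIdx.ext' e1 e2
    have hkf : k.1 = f := EIdx.ext' e1' e2'
    have hef : e = f := hke.symm.trans hkf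
    subst hef
    exact ⟨rfl, k.2, Or.inr ⟨hI, hI'⟩⟩

lemma glue (e : EIdx n G) {a a' : Pc} {s : Hd} {t t' : ℝ} (h1 : (lo n e.i e.j a : ℝ) ≤ t)
    (h2 : t ≤ hi n e.i e.j a) (h1' : (lo n e.i e.j a' : ℝ) ≤ t')
    (h2' : t' ≤ hi n e.i e.j a')
    (hI : Inc n e.i e.j a s false t) (hI' : Inc n e.i e.j a' s true t') :
    (cfg n G).toS (pt n e.i e.j a t) = (cfg n G).toS (pt n e.i e.j a' t') := by
  have e1 := Inc_pt e.ok hI
  have e2 := Inc_pt e.ok hI'
  simp only [Bool.false_eq_true, if_false, if_true] at e1 e2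
  have q1 := pt_reg e h1 h2
  have q2 := pt_reg e h1' h2'
  rw [e1] at q1 ⊢
  rw [e2] at q2 ⊢
  have hc : (starRingEnd ℂ) (-Complex.I) = Complex.I := by simp
  have := (cfg n G).toS_glue (k := (e, s)) (u := -Complex.I) (by simp) q1 (by
    rw [hc]; exact q2)
  rw [hc] at this
  exact this

/-- a piece on the surface -/
noncomputable def P (e : EIdx n G) (a : Pc) : Set (cfg n G).Surface :=
  (fun t : ℝ => (cfg n G).toS (pt n e.i e.j a t)) '' Icc (lo n e.i e.j a : ℝ) (hi n e.i e.j a : ℝ)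

lemma pt_continuous (n i j : ℤ) (a : Pc) : Continuous (pt n i j a) := by
  have key : ∀ f g : ℝ → ℝ, Continuous f → Continuous g →
      Continuous (fun t => (⟨f t, g t⟩ : ℂ)) := by
    intro f g hf hg
    have : (fun t => (⟨f t, g t⟩ : ℂ)) = fun t => Complex.equivRealProdCLM.symm (f t, g t) := by
      funext t
      apply Complex.ext <;> simp
    rw [this]
    fun_prop
  change Continuous (fun t => pt n i j a t)
  cases a <;> simp only [pt] <;> apply key <;> fun_prop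

lemma lo_lt_hi {n i j : ℤ} (h : Ok n i j) (a : Pc) : lo n i j a < hi n i j a := by
  obtain ⟨f1, f2, f3⟩ := facts h
  obtain ⟨a1, a2, a3⟩ := h
  cases a <;> simp only [lo, hi] <;> omega

lemma piece_arc (e : EIdx n G) (a : Pc) :
    IsArc (P e a) ((cfg n G).toS (pt n e.i e.j a (lo n e.i e.j a : ℝ)))
      ((cfg n G).toS (pt n e.i e.j a (hi n e.i e.j a : ℝ))) := by
  apply IsArc.of_interval (γ := fun t : ℝ => (cfg n G).toS (pt n e.i e.j a t))
  · exact_mod_cast lo_lt_hi e.ok a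
  · exact (cfg n G).continuousOn_toS.comp (pt_continuous _ _ _ _).continuousOn
      (fun t ht => pt_reg e ht.1 ht.2)
  · intro t ht t' ht' h
    rcases S_eq e e ht.1 ht.2 ht'.1 ht'.2 h with h | ⟨-, s, ⟨hI, hI'⟩ | ⟨hI, hI'⟩⟩
    · exact (inter_same e.ok a a t t' ht.1 ht.2 ht'.1 ht'.2 h).2
    · exfalso
      cases a <;> cases s <;> simp only [Inc] at hI hI'
    · exfalso
      cases a <;> cases s <;> simp only [Inc] at hI hI'

lemma P_inter (e : EIdx n G) {a a' : Pc} (ha : a ≠ a') {x : (cfg n G).Surface} (hx : x ∈ P e a)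
    (hx' : x ∈ P e a') : ∃ t t' : ℝ, ∃ s : Hd, x = (cfg n G).toS (pt n e.i e.j a t) ∧
      ((Inc n e.i e.j a s false t ∧ Inc n e.i e.j a' s true t') ∨
      (Inc n e.i e.j a s true t ∧ Inc n e.i e.j a' s false t')) := by
  obtain ⟨t, ht, rfl⟩ := hx
  obtain ⟨t', ht', h⟩ := hx'
  rcases S_eq e e ht.1 ht.2 ht'.1 ht'.2 h.symm with h | ⟨-, s, hs⟩
  · exact absurd (inter_same e.ok a a' t t' ht.1 ht.2 ht'.1 ht'.2 h).1 ha
  · exact ⟨t, t', s, rfl, hs⟩

/-- an edge on the surface -/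
noncomputable def AS (e : EIdx n G) : Set (cfg n G).Surface :=
  ((((P e .v0 ∪ P e .v1) ∪ P e .h0) ∪ P e .h1) ∪ P e .s)

lemma mem_AS {e : EIdx n G} {x : (cfg n G).Surface} :
    x ∈ AS e ↔ ∃ a : Pc, ∃ t : ℝ, (lo n e.i e.j a : ℝ) ≤ t ∧ t ≤ hi n e.i e.j a ∧
      (cfg n G).toS (pt n e.i e.j a t) = x := by
  constructor
  · rintro ((((⟨t, ht, h⟩ | ⟨t, ht, h⟩) | ⟨t, ht, h⟩) | ⟨t, ht, h⟩) | ⟨t, ht, h⟩)
    · exact ⟨.v0, t, ht.1, ht.2, h⟩
    · exact ⟨.v1, t, ht.1, ht.2, h⟩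
    · exact ⟨.h0, t, ht.1, ht.2, h⟩
    · exact ⟨.h1, t, ht.1, ht.2, h⟩
    · exact ⟨.s, t, ht.1, ht.2, h⟩
  · rintro ⟨a, t, h1, h2, h3⟩
    have : x ∈ P e a := ⟨t, ⟨h1, h2⟩, h3⟩
    unfold AS
    cases a <;> simp only [mem_union, this, true_or, or_true]

/-- a vertex on the surface -/
noncomputable def posn (n : ℕ) (G : SimpleGraph (Fin n)) (v : Fin n) : (cfg n G).Surface :=
  (cfg n G).toS (vx n ((v : ℕ) : ℤ))

lemma AS_arc (e : EIdx n G) : IsArc (AS e) (posn n G e.1.1) (posn n G e.1.2) := by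
  have ok := e.ok
  have lh := fun a => (show ((lo n e.i e.j a : ℤ) : ℝ) ≤ (hi n e.i e.j a : ℤ) by
    exact_mod_cast (lo_lt_hi ok a).le)
  have g1 := glue e (a := .v0) (a' := .v1) (s := .A) (t := (hi n e.i e.j .v0 : ℤ))
    (t' := (lo n e.i e.j .v1 : ℤ)) (lh _) le_rfl le_rfl (lh _) rfl rfl
  have g2 := glue e (a := .v1) (a' := .h0) (s := .B) (t := (hi n e.i e.j .v1 : ℤ))
    (t' := (lo n e.i e.j .h0 : ℤ)) (lh _) le_rfl le_rfl (lh _) rfl rfl
  have g3 := glue e (a := .h0) (a' := .h1) (s := .C) (t := (hi n e.i e.j .h0 : ℤ))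
    (t' := (lo n e.i e.j .h1 : ℤ)) (lh _) le_rfl le_rfl (lh _) rfl rfl
  have g4 := glue e (a := .s) (a' := .h1) (s := .D) (t := (hi n e.i e.j .s : ℤ))
    (t' := (hi n e.i e.j .h1 : ℤ)) (lh _) le_rfl (lh _) le_rfl rfl rfl
  have p0 := piece_arc e .v0
  have p1 := piece_arc e .v1
  have p2 := piece_arc e .h0
  have p3 := piece_arc e .h1
  have p4 := (piece_arc e .s).symm
  rw [← g1] at p1
  rw [← g2] at p2
  rw [← g3] at p3
  rw [g4] at p4
  have hst : pt n e.i e.j .v0 (lo n e.i e.j .v0 : ℤ) = vx n ((e.1.1 : ℕ) : ℤ) := by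
    simp only [pt, lo, vx]
    apply Complex.ext
    · simp only
      push_cast
      norm_num [EIdx.i]
    · norm_num
  have hen : pt n e.i e.j .s (lo n e.i e.j .s : ℤ) = vx n ((e.1.2 : ℕ) : ℤ) := by
    simp only [pt, lo, vx]
    apply Complex.ext
    · simp only
      push_cast
      norm_num [EIdx.j]
    · norm_num
  unfold posn
  rw [← hst, ← hen]
  refine IsArc.trans (IsArc.trans (IsArc.trans (IsArc.trans p0 p1 ?_) p2 ?_) p3 ?_) p4 ?_
  · rintro x ⟨hx, hx'⟩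
    obtain ⟨t, t', s, rfl, hs⟩ := P_inter e (by decide) hx hx'
    rcases hs with ⟨hs, hs'⟩ | ⟨hs, hs'⟩ <;> cases s <;> simp only [Inc] at hs hs'
    subst hs; rfl
  · rintro x ⟨hx | hx, hx'⟩
    · obtain ⟨t, t', s, rfl, hs⟩ := P_inter e (by decide) hx hx'
      rcases hs with ⟨hs, hs'⟩ | ⟨hs, hs'⟩ <;> cases s <;> simp only [Inc] at hs hs'
    · obtain ⟨t, t', s, rfl, hs⟩ := P_inter e (by decide) hx hx'
      rcases hs with ⟨hs, hs'⟩ | ⟨hs, hs'⟩ <;> cases s <;> simp only [Inc] at hs hs'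
      subst hs; rfl
  · rintro x ⟨(hx | hx) | hx, hx'⟩
    · obtain ⟨t, t', s, rfl, hs⟩ := P_inter e (by decide) hx hx'
      rcases hs with ⟨hs, hs'⟩ | ⟨hs, hs'⟩ <;> cases s <;> simp only [Inc] at hs hs'
    · obtain ⟨t, t', s, rfl, hs⟩ := P_inter e (by decide) hx hx'
      rcases hs with ⟨hs, hs'⟩ | ⟨hs, hs'⟩ <;> cases s <;> simp only [Inc] at hs hs'
    · obtain ⟨t, t', s, rfl, hs⟩ := P_inter e (by decide) hx hx'
      rcases hs with ⟨hs, hs'⟩ | ⟨hs, hs'⟩ <;> cases s <;> simp only [Inc] at hs hs'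
      subst hs; rfl
  · rintro x ⟨((hx | hx) | hx) | hx, hx'⟩
    · obtain ⟨t, t', s, rfl, hs⟩ := P_inter e (by decide) hx hx'
      rcases hs with ⟨hs, hs'⟩ | ⟨hs, hs'⟩ <;> cases s <;> simp only [Inc] at hs hs'
    · obtain ⟨t, t', s, rfl, hs⟩ := P_inter e (by decide) hx hx'
      rcases hs with ⟨hs, hs'⟩ | ⟨hs, hs'⟩ <;> cases s <;> simp only [Inc] at hs hs'
    · obtain ⟨t, t', s, rfl, hs⟩ := P_inter e (by decide) hx hx'
      rcases hs with ⟨hs, hs'⟩ | ⟨hs, hs'⟩ <;> cases s <;> simp only [Inc] at hs hs'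
    · obtain ⟨t, t', s, rfl, hs⟩ := P_inter e (by decide) hx hx'
      rcases hs with ⟨hs, hs'⟩ | ⟨hs, hs'⟩ <;> cases s <;> simp only [Inc] at hs hs'
      subst hs; rfl

end Pool.Agent.R32.TG
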