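import Pool.Agent.R32.TG.Defs

namespace Pool.Agent.R32.TG

open Set Topology

namespace HandleConfig

variable {ι : Type} (H : HandleConfig ι)

/-- The planar region outside the open discs. -/
def Reg : Set ℂ := {z | ∀ k b, 1 ≤ ‖z - H.c k b‖}

/-- A point of the planar region as a point of the sphere with holes. -/
def lift (z : H.Reg) : H.Bordered :=
  ⟨((z.1 : ℂ) : OnePoint ℂ), by
    intro k b w hw
    have : z.1 = w := OnePoint.coe_injective hw
    rw [← this]; exact z.2 k b⟩

lemma continuous_lift : Continuous H.lift := by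
  unfold lift
  exact Continuous.subtype_mk (OnePoint.continuous_coe.comp continuous_subtype_val) _

open Classical in
/-- The projection from the plane onto the surface (junk value inside the discs). -/
noncomputable def toS (z : ℂ) : H.Surface :=
  if h : z ∈ H.Reg then Quot.mk _ (H.lift ⟨z, h⟩)
  else Quot.mk _ ⟨OnePoint.infty, fun _ _ w hw => absurd hw (OnePoint.infty_ne_coe w)⟩

lemma toS_of_mem {z : ℂ} (h : z ∈ H.Reg) : H.toS z = Quot.mk _ (H.lift ⟨z, h⟩) := by
  unfold toS; rw [dif_pos h]

lemma continuousOn_toS : ContinuousOn H.toS H.Reg := by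
  rw [continuousOn_iff_continuous_restrict]
  have : H.Reg.domRestrict H.toS = fun z => Quot.mk _ (H.lift z) := by
    funext z
    exact H.toS_of_mem z.2
  rw [this]
  exact (continuous_quot_mk).comp H.continuous_lift

/-- The points `z` and `w` are glued. -/
def PG (z w : ℂ) : Prop := ∃ (k : ι) (u : ℂ), ‖u‖ = 1 ∧ z = H.c k false + u ∧
  w = H.c k true + (starRingEnd ℂ) u

lemma norm_conj' (u : ℂ) : ‖(starRingEnd ℂ) u‖ = ‖u‖ := by
  simp

lemma PG.left {z w : ℂ} (h : H.PG z w) : ∃ k, ‖z - H.c k false‖ = 1 ∧ ‖w - H.c k true‖ = 1 := by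
  obtain ⟨k, u, hu, rfl, rfl⟩ := h
  refine ⟨k, by simpa using hu, by simpa using hu⟩

/-- a point lies on at most one circle -/
lemma circle_unique {z : ℂ} {k k' : ι} {b b' : Bool} (h : ‖z - H.c k b‖ ≤ 1)
    (h' : ‖z - H.c k' b'‖ ≤ 1) : k = k' ∧ b = b' := by
  by_contra hne
  have h1 := H.disj k b k' b' (by
    intro h; apply hne; rw [Prod.mk.injEq] at h; exact h)
  have : H.c k b - H.c k' b' = (z - H.c k' b') - (z - H.c k b) := by ring
  have h2 : ‖H.c k b - H.c k' b'‖ ≤ ‖z - H.c k' b'‖ + ‖z - H.c k b‖ := by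
    rw [this]; exact norm_sub_le _ _
  linarith

/-- equality on the level of `Bordered` -/
lemma quot_eq {p q : H.Bordered} (h : (Quot.mk H.Glued p) = Quot.mk H.Glued q) :
    p = q ∨ H.Glued p q ∨ H.Glued q p := by
  have key : ∀ q r : H.Bordered, H.Glued q r →
      ((p = q ∨ H.Glued p q ∨ H.Glued q p) = (p = r ∨ H.Glued p r ∨ H.Glued r p)) := by
    intro q r hqr
    apply propext
    constructor
    · rintro (rfl | hpq | hqp)
      · exact Or.inr (Or.inl hqr)
      · exfalso
        obtain ⟨k, u, hu, h1, h2⟩ := hpq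
        obtain ⟨k', u', hu', h1', h2'⟩ := hqr
        have e : (H.c k true + (starRingEnd ℂ) u) = H.c k' false + u' :=
          OnePoint.coe_injective (h2.symm.trans h1')
        have := H.circle_unique (z := H.c k true + (starRingEnd ℂ) u) (k := k) (b := true)
          (k' := k') (b' := false) (by simp [hu]) (by rw [e]; simp [hu'])
        exact absurd this.2 (by simp)
      · left
        obtain ⟨k, u, hu, h1, h2⟩ := hqp
        obtain ⟨k', u', hu', h1', h2'⟩ := hqr
        have e : (H.c k false + u) = H.c k' false + u' :=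
          OnePoint.coe_injective (h1.symm.trans h1')
        have hk := H.circle_unique (z := H.c k false + u) (k := k) (b := false)
          (k' := k') (b' := false) (by simp [hu]) (by rw [e]; simp [hu'])
        obtain ⟨rfl, -⟩ := hk
        have hu2 : u = u' := by
          exact add_left_cancel e
        subst hu2
        apply Subtype.ext
        rw [h2, h2']
    · rintro (rfl | hpr | hrp)
      · exact Or.inr (Or.inr hqr)
      · left
        obtain ⟨k, u, hu, h1, h2⟩ := hpr
        obtain ⟨k', u', hu', h1', h2'⟩ := hqr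
        have e : (H.c k true + (starRingEnd ℂ) u) = H.c k' true + (starRingEnd ℂ) u' :=
          OnePoint.coe_injective (h2.symm.trans h2')
        have hk := H.circle_unique (z := H.c k true + (starRingEnd ℂ) u) (k := k) (b := true)
          (k' := k') (b' := true) (by simp [hu]) (by rw [e]; simp [hu'])
        obtain ⟨rfl, -⟩ := hk
        have hu2 : u = u' := by
          have := add_left_cancel e
          exact (starRingEnd ℂ).injective this
        subst hu2
        apply Subtype.ext
        rw [h1, h1']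
      · exfalso
        obtain ⟨k, u, hu, h1, h2⟩ := hrp
        obtain ⟨k', u', hu', h1', h2'⟩ := hqr
        have e : (H.c k false + u) = H.c k' true + (starRingEnd ℂ) u' :=
          OnePoint.coe_injective (h1.symm.trans h2')
        have := H.circle_unique (z := H.c k false + u) (k := k) (b := false)
          (k' := k') (b' := true) (by simp [hu]) (by rw [e]; simp [hu'])
        exact absurd this.2 (by simp)
  have h3 := congrArg (Quot.lift (fun q => (p = q ∨ H.Glued p q ∨ H.Glued q p)) key) h
  change (p = p ∨ H.Glued p p ∨ H.Glued p p) = (p = q ∨ H.Glued p q ∨ H.Glued q p) at h3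
  rw [← h3]
  exact Or.inl rfl

lemma toS_eq {z w : ℂ} (hz : z ∈ H.Reg) (hw : w ∈ H.Reg) (h : H.toS z = H.toS w) :
    z = w ∨ H.PG z w ∨ H.PG w z := by
  rw [H.toS_of_mem hz, H.toS_of_mem hw] at h
  rcases H.quot_eq h with h | ⟨k, u, hu, h1, h2⟩ | ⟨k, u, hu, h1, h2⟩
  · left
    have := congrArg Subtype.val h
    exact OnePoint.coe_injective this
  · right; left
    exact ⟨k, u, hu, OnePoint.coe_injective h1, OnePoint.coe_injective h2⟩
  · right; right
    exact ⟨k, u, hu, OnePoint.coe_injective h1, OnePoint.coe_injective h2⟩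

lemma toS_glue {k : ι} {u : ℂ} (hu : ‖u‖ = 1) (h1 : H.c k false + u ∈ H.Reg)
    (h2 : H.c k true + (starRingEnd ℂ) u ∈ H.Reg) :
    H.toS (H.c k false + u) = H.toS (H.c k true + (starRingEnd ℂ) u) := by
  rw [H.toS_of_mem h1, H.toS_of_mem h2]
  exact Quot.sound ⟨k, u, hu, rfl, rfl⟩

/-- Away from the discs the projection is an open embedding. -/
lemma chart (x y : ℝ) (hz : ∀ z : ℂ, |z.re - x| < 1 → |z.im - y| < 1 →
    ∀ k b, 1 < ‖z - H.c k b‖) :
    IsOpenEmbedding (fun q : Ioo (-1 : ℝ) 1 × Ioo (-1 : ℝ) 1 =>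
      H.toS ⟨x + q.1.1, y + q.2.1⟩) := by
  set g : Ioo (-1 : ℝ) 1 × Ioo (-1 : ℝ) 1 → ℂ := fun q => ⟨x + q.1.1, y + q.2.1⟩ with hg
  have hgi : ∀ q k b, 1 < ‖g q - H.c k b‖ := by
    intro q k b
    apply hz
    · simp only [hg]; rw [abs_lt]; obtain ⟨⟨a, ha⟩, ⟨b, hb⟩⟩ := q
      simp only [add_sub_cancel_left]
      exact ⟨ha.1, ha.2⟩
    · simp only [hg]; rw [abs_lt]; obtain ⟨⟨a, ha⟩, ⟨b, hb⟩⟩ := q
      simp only [add_sub_cancel_left]
      exact ⟨hb.1, hb.2⟩
  have hreg : ∀ q, g q ∈ H.Reg := fun q k b => (hgi q k b).le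
  have hgo : IsOpenMap g := by
    have h1 : IsOpenMap (Prod.map (Subtype.val : Ioo (-1 : ℝ) 1 → ℝ)
        (Subtype.val : Ioo (-1 : ℝ) 1 → ℝ)) :=
      (isOpen_Ioo.isOpenMap_subtype_val).prodMap (isOpen_Ioo.isOpenMap_subtype_val)
    have h2 : IsOpenMap (fun p : ℝ × ℝ => ((x, y) : ℝ × ℝ) + p) := isOpenMap_add_left _
    have h3 : IsOpenMap (Complex.equivRealProdCLM.symm : ℝ × ℝ → ℂ) :=
      Complex.equivRealProdCLM.symm.toHomeomorph.isOpenMap
    have h4 := h3.comp (h2.comp h1)
    have : g = (Complex.equivRealProdCLM.symm : ℝ × ℝ → ℂ) ∘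
      ((fun p : ℝ × ℝ => ((x, y) : ℝ × ℝ) + p) ∘ (Prod.map (Subtype.val : Ioo (-1 : ℝ) 1 → ℝ)
        (Subtype.val : Ioo (-1 : ℝ) 1 → ℝ))) := by
      funext q
      apply Complex.ext <;> simp [hg]
    rw [this]; exact h4
  have hgc : Continuous g := by
    have : g = fun q => Complex.equivRealProdCLM.symm (x + q.1.1, y + q.2.1) := by
      funext q
      apply Complex.ext <;> simp [hg]
    rw [this]
    fun_prop
  have hginj : Function.Injective g := by
    intro q r h
    simp only [hg, Complex.mk.injEq] at h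
    obtain ⟨h1, h2⟩ := h
    apply Prod.ext
    · apply Subtype.ext; linarith
    · apply Subtype.ext; linarith
  have hPG : ∀ q z, ¬ H.PG (g q) z ∧ ¬ H.PG z (g q) := by
    intro q z
    constructor
    · intro h
      obtain ⟨k, h1, h2⟩ := PG.left H h
      have := hgi q k false
      linarith
    · intro h
      obtain ⟨k, h1, h2⟩ := PG.left H h
      have := hgi q k true
      linarith
  refine IsOpenEmbedding.of_continuous_injective_isOpenMap ?_ ?_ ?_
  · exact H.continuousOn_toS.comp_continuous hgc hreg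
  · intro q r h
    rcases H.toS_eq (hreg q) (hreg r) h with h | h | h
    · exact hginj h
    · exact absurd h (hPG q _).1
    · exact absurd h (hPG r _).1
  · intro W hW
    have h1 : IsOpen (g '' W) := hgo W hW
    have h2 : IsOpen ((fun z : ℂ => (z : OnePoint ℂ)) '' (g '' W)) :=
      (OnePoint.isOpenEmbedding_coe).isOpenMap _ h1
    have h3 : IsOpen ((Subtype.val : H.Bordered → OnePoint ℂ) ⁻¹'
        ((fun z : ℂ => (z : OnePoint ℂ)) '' (g '' W))) := h2.preimage continuous_subtype_val
    change IsOpen ((Quot.mk H.Glued) ⁻¹' ((fun q => H.toS (g q)) '' W))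
    have h4 : (Quot.mk H.Glued) ⁻¹' ((fun q => H.toS (g q)) '' W) =
      ((Subtype.val : H.Bordered → OnePoint ℂ) ⁻¹'
        ((fun z : ℂ => (z : OnePoint ℂ)) '' (g '' W))) := by
      ext p
      simp only [mem_preimage, mem_image]
      constructor
      · rintro ⟨q, hq, h⟩
        refine ⟨g q, ⟨q, hq, rfl⟩, ?_⟩
        rw [H.toS_of_mem (hreg q)] at h
        rcases H.quot_eq h with h | ⟨k, u, hu, h1, h2⟩ | ⟨k, u, hu, h1, h2⟩
        · rw [← h]; rfl
        · exfalso
          have e := OnePoint.coe_injective h1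
          have := hgi q k false
          simp only at e
          rw [e] at this
          simp [hu] at this
        · exfalso
          have e := OnePoint.coe_injective h2
          have := hgi q k true
          simp only at e
          rw [e] at this
          simp [hu] at this
      · rintro ⟨_, ⟨q, hq, rfl⟩, h⟩
        refine ⟨q, hq, ?_⟩
        rw [H.toS_of_mem (hreg q)]
        congr 1
        exact Subtype.ext h
    rw [h4]; exact h3

end HandleConfig

/-! ### Arcs -/

variable {X : Type} [TopologicalSpace X]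

lemma IsArc.symm {A : Set X} {a b : X} (h : IsArc A a b) : IsArc A b a := by
  obtain ⟨γ, hc, hi, h0, h1, hr⟩ := h
  refine ⟨γ ∘ unitInterval.symm, hc.comp unitInterval.continuous_symm,
    hi.comp unitInterval.symm_bijective.injective, by simp [h1], by simp [h0], ?_⟩
  rw [Function.Surjective.range_comp unitInterval.symm_bijective.surjective, hr]

lemma IsArc.of_interval {s t : ℝ} (h : s < t) (γ : ℝ → X) (hc : ContinuousOn γ (Icc s t))
    (hi : InjOn γ (Icc s t)) : IsArc (γ '' Icc s t) (γ s) (γ t) := by
  have hm : ∀ u : unitInterval, s + u.1 * (t - s) ∈ Icc s t := by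
    intro u
    obtain ⟨u, hu0, hu1⟩ := u
    constructor
    · have : 0 ≤ u * (t - s) := by apply mul_nonneg hu0; linarith
      simpa using this
    · have : u * (t - s) ≤ 1 * (t - s) := mul_le_mul_of_nonneg_right hu1 (by linarith)
      simp only; linarith
  refine ⟨fun u => γ (s + u.1 * (t - s)), ?_, ?_, by simp, by simp, ?_⟩
  · exact hc.comp_continuous (by fun_prop) hm
  · intro u v huv
    have := hi (hm u) (hm v) huv
    have h2 : (u.1 - v.1) * (t - s) = 0 := by linarith
    rcases mul_eq_zero.mp h2 with h3 | h3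
    · apply Subtype.ext; linarith
    · linarith
  · ext x
    simp only [mem_range, mem_image]
    constructor
    · rintro ⟨u, rfl⟩
      exact ⟨_, hm u, rfl⟩
    · rintro ⟨r, hr, rfl⟩
      have hts : 0 < t - s := by linarith
      refine ⟨⟨(r - s) / (t - s), ?_, ?_⟩, ?_⟩
      · apply div_nonneg <;> linarith [hr.1]
      · rw [div_le_one hts]; linarith [hr.2]
      · congr 1
        simp only
        field_simp
        ring

lemma IsArc.trans {A B : Set X} {a b c : X} (h : IsArc A a b) (h' : IsArc B b c)
    (hAB : A ∩ B ⊆ {b}) : IsArc (A ∪ B) a c := by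
  obtain ⟨γ, hc, hi, h0, h1, hr⟩ := h
  obtain ⟨δ, hc', hi', h0', h1', hr'⟩ := h'
  let P : Path a b := ⟨⟨γ, hc⟩, h0, h1⟩
  let Q : Path b c := ⟨⟨δ, hc'⟩, h0', h1'⟩
  have hP : ∀ u, P u = γ u := fun u => rfl
  have hQ : ∀ u, Q u = δ u := fun u => rfl
  have hmix : ∀ u v : unitInterval, γ u = δ v → u = 1 ∧ v = 0 := by
    intro u v huv
    have hA : γ u ∈ A := hr ▸ mem_range_self u
    have hB : γ u ∈ B := by rw [huv]; exact hr' ▸ mem_range_self v
    have hb : γ u = b := hAB ⟨hA, hB⟩
    refine ⟨hi (hb.trans h1.symm), hi' ((huv.symm.trans hb).trans h0'.symm)⟩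
  refine ⟨P.trans Q, (P.trans Q).continuous, ?_, by simp, by simp, ?_⟩
  · intro u v huv
    rw [Path.trans_apply, Path.trans_apply] at huv
    split_ifs at huv with hu hv hv
    · have := hi huv
      have := congrArg Subtype.val this
      simp only at this
      apply Subtype.ext; linarith
    · exfalso
      have := hmix _ _ huv
      have := congrArg Subtype.val this.2
      simp only [Icc.coe_zero] at this
      apply hv; linarith
    · exfalso
      have := hmix _ _ huv.symm
      have := congrArg Subtype.val this.2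
      simp only [Icc.coe_zero] at this
      apply hu; linarith
    · have := hi' huv
      have := congrArg Subtype.val this
      simp only at this
      apply Subtype.ext; linarith
  · have := Path.trans_range P Q
    rw [this]
    have e1 : range P = range γ := rfl
    have e2 : range Q = range δ := rfl
    rw [e1, e2, hr, hr']

lemma CrossAt.symm {A B : Set X} {p : X} (h : CrossAt A B p) : CrossAt B A p := by
  obtain ⟨φ, h1, h2, h3, h4⟩ := h
  refine ⟨φ ∘ Prod.swap, h1.comp (Homeomorph.prodComm _ _).isOpenEmbedding, ?_, ?_, ?_⟩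
  · intro q hq hq'
    exact h2 _ hq' hq
  · intro q
    exact h4 _
  · intro q
    exact h3 _

end Pool.Agent.R32.TG
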